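import Mathlib

/-!
# Interface for `MP_dcc108_nt` (counting representations of `1` by `t` unit fractions)

Two self-contained blocks:

* `LS` : the large sieve inequality at Farey fractions, `LSStatement`;
* `UB` : finiteness and the classical upper bound for the number of ordered solutions, `UBStatement`.
-/

set_option autoImplicit false

namespace Pool.Agent.Lib_helper83.EF

/-- `e x = exp (2 π i x)` -/
noncomputable def e (x : ℝ) : ℂ := Complex.exp (2 * Real.pi * x * Complex.I)

/-- Block LS: the large sieve inequality at the Farey fractions `h / d`, `d ≤ G`, when the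
trigonometric polynomial has length `L ≥ G ^ 2`. -/
def LSStatement : Prop :=
  ∀ (G L : ℕ), G ^ 2 ≤ L → ∀ a : ℕ → ℂ,
    ∑ d ∈ Finset.Icc 1 G, ∑ h ∈ (Finset.range d).filter (fun h => Nat.Coprime h d),
        ‖∑ n ∈ Finset.range L, a n * e ((n : ℝ) * (h : ℝ) / (d : ℝ))‖ ^ 2
      ≤ 6 * (L : ℝ) * ∑ n ∈ Finset.range L, ‖a n‖ ^ 2

/-- ordered solutions of `∑ 1 / x i = 1` in positive integers -/
def OSol (t : ℕ) : Set (Fin t → ℕ) :=
  {x | (∀ i, 0 < x i) ∧ ∑ i, (1 : ℚ) / (x i : ℚ) = 1}

/-- Block UB: finiteness of the set of ordered solutions and the classical doubly exponential upper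
bound (in the crude form `≤ exp (exp t)`). -/
def UBStatement : Prop :=
  (∀ t : ℕ, (OSol t).Finite) ∧
    ∃ t₀ : ℕ, ∀ t ≥ t₀, ((OSol t).ncard : ℝ) ≤ Real.exp (Real.exp (t : ℝ))

end Pool.Agent.Lib_helper83.EF
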