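import Mathlib

/-!
# Chains of unit fractions
-/

set_option autoImplicit false

namespace Pool.Agent.Lib_helper83.EF

open Finset

/-- sum of the reciprocals -/
def rs (s : Multiset ℕ) : ℚ := (s.map (fun x : ℕ => (1 : ℚ) / (x : ℚ))).sum

/-- `1 - 1 / D` is a sum of `t` unit fractions -/
def Reach (t D : ℕ) : Prop :=
  0 < D ∧ ∃ s : Multiset ℕ, Multiset.card s = t ∧ (∀ x ∈ s, 0 < x) ∧ rs s + 1 / (D : ℚ) = 1

/-- there are at least `K` unordered representations of `1` with `t` terms -/
def LB (t K : ℕ) : Prop :=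
  ∃ F : Finset (Multiset ℕ),
    (∀ s ∈ F, Multiset.card s = t ∧ (∀ x ∈ s, 0 < x) ∧ rs s = 1) ∧ K ≤ F.card

lemma rs_cons (x : ℕ) (s : Multiset ℕ) : rs (x ::ₘ s) = 1 / (x : ℚ) + rs s := by
  unfold rs; simp

lemma rs_add (s u : Multiset ℕ) : rs (s + u) = rs s + rs u := by
  unfold rs; simp

lemma reach_one : Reach 1 2 := by
  refine ⟨by norm_num, {2}, by simp, by simp, ?_⟩
  unfold rs
  norm_num

lemma reach_step {t D a : ℕ} (h : Reach t D) (ha : a ∣ D) : Reach (t + 1) (D * (a + 1)) := by
  obtain ⟨hD, s, hs1, hs2, hs3⟩ := h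
  obtain ⟨b, rfl⟩ := ha
  have ha0 : 0 < a := Nat.pos_of_mul_pos_right hD
  have hb0 : 0 < b := Nat.pos_of_mul_pos_left hD
  refine ⟨by positivity, (b * (a + 1)) ::ₘ s, by simp [hs1], ?_, ?_⟩
  · intro x hx
    rcases Multiset.mem_cons.mp hx with rfl | hx
    · positivity
    · exact hs2 x hx
  · rw [rs_cons]
    refine Eq.trans ?_ hs3
    have h1 : (a : ℚ) ≠ 0 := by positivity
    have h2 : (b : ℚ) ≠ 0 := by positivity
    have h3 : (a : ℚ) + 1 ≠ 0 := by positivity
    have key : (1 : ℚ) / ((b : ℚ) * (a + 1)) + 1 / ((a : ℚ) * b * (a + 1)) = 1 / ((a : ℚ) * b) := by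
      field_simp
    push_cast
    linarith

/-- powers of two are reached quickly -/
lemma reach_pow (j : ℕ) : ∃ E : ℕ, 0 < E ∧
    Reach (1 + 2 * j) (2 ^ 2 ^ j * (2 ^ 2 ^ j - 1) * E) := by
  induction j with
  | zero => exact ⟨1, one_pos, by simpa using reach_one⟩
  | succ j ih =>
    obtain ⟨E, hE, h⟩ := ih
    obtain ⟨Y, hY⟩ : ∃ Y : ℕ, 2 ^ 2 ^ j = Y + 1 :=
      ⟨2 ^ 2 ^ j - 1, (Nat.sub_add_cancel Nat.one_le_two_pow).symm⟩
    refine ⟨(Y + 1) * E, by positivity, ?_⟩
    rw [hY, Nat.add_sub_cancel] at h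
    have h1 := reach_step (a := Y + 1) h ⟨Y * E, by ring⟩
    have h2 := reach_step (a := Y * (Y + 2)) h1 ⟨(Y + 1) * E, by ring⟩
    have h3 : 2 ^ 2 ^ (j + 1) = (Y + 1) * (Y + 1) := by
      rw [pow_succ 2 j, pow_mul, hY]; ring
    have h4 : (Y + 1) * (Y + 1) - 1 = Y * (Y + 2) := by
      have : (Y + 1) * (Y + 1) = Y * (Y + 2) + 1 := by ring
      omega
    rw [h3, h4]
    have h5 : (Y + 1) * Y * E * (Y + 1 + 1) * (Y * (Y + 2) + 1) =
        (Y + 1) * (Y + 1) * (Y * (Y + 2)) * ((Y + 1) * E) := by ring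
    rw [h5] at h2
    have h6 : 1 + 2 * j + 1 + 1 = 1 + 2 * (j + 1) := by ring
    rw [h6] at h2
    exact h2

/-- the main identity -/
lemma reach_main {ι : Type} [Fintype ι] {t S N K q : ℕ} (h : Reach t S) (hN : 0 < N)
    (hK : 0 < K) (hq : 0 < q)
    (d : ι → ℕ) (hd0 : ∀ i, 0 < d i) (hd : ∀ i, d i ∣ S * N)
    (hsum : ∑ i, d i + q = N * K * q) : Reach (t + Fintype.card ι) (S * N * K) := by
  obtain ⟨hS, s, hs1, hs2, hs3⟩ := h
  refine ⟨by positivity, s + (univ : Finset ι).val.map (fun i => S * N * K * q / d i), ?_, ?_, ?_⟩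
  · simp [hs1]
  · intro x hx
    rcases Multiset.mem_add.mp hx with hx | hx
    · exact hs2 x hx
    · rw [Multiset.mem_map] at hx
      obtain ⟨i, _, rfl⟩ := hx
      refine Nat.div_pos (Nat.le_of_dvd (by positivity) ?_) (hd0 i)
      exact (hd i).trans ⟨K * q, by ring⟩
  · rw [rs_add]
    have h1 : rs ((univ : Finset ι).val.map (fun i => S * N * K * q / d i)) =
        (∑ i, (d i : ℚ)) / ((S : ℚ) * N * K * q) := by
      unfold rs
      rw [Multiset.map_map]
      show ∑ i, _ = _
      rw [sum_div]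
      refine sum_congr rfl fun i _ => ?_
      have h2 : d i ∣ S * N * K * q := (hd i).trans ⟨K * q, by ring⟩
      have h3 : (d i : ℚ) ≠ 0 := by have := hd0 i; positivity
      simp only [Function.comp_apply]
      rw [Nat.cast_div h2 h3]
      push_cast
      have h4 : (S : ℚ) ≠ 0 := by positivity
      have h5 : (N : ℚ) ≠ 0 := by positivity
      have h6 : (K : ℚ) ≠ 0 := by positivity
      have h7 : (q : ℚ) ≠ 0 := by positivity
      field_simp
    rw [h1]
    refine Eq.trans ?_ hs3
    have h8 : (∑ i, (d i : ℚ)) = (N : ℚ) * K * q - q := by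
      have : ((∑ i, d i + q : ℕ) : ℚ) = ((N * K * q : ℕ) : ℚ) := by exact_mod_cast hsum
      push_cast at this
      linarith
    rw [h8]
    have h4 : (S : ℚ) ≠ 0 := by positivity
    have h5 : (N : ℚ) ≠ 0 := by positivity
    have h6 : (K : ℚ) ≠ 0 := by positivity
    have h7 : (q : ℚ) ≠ 0 := by positivity
    have key : ((N : ℚ) * K * q - q) / ((S : ℚ) * N * K * q) + 1 / ((S : ℚ) * N * K) = 1 / S := by
      field_simp
      ring
    push_cast
    linarith

/-- the last term splits in at least `τ(D)` ways -/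
lemma lb_of_reach {t D : ℕ} (h : Reach t D) : LB (t + 2) D.divisors.card := by
  classical
  obtain ⟨hD, s, hs1, hs2, hs3⟩ := h
  let f : ℕ → Multiset ℕ := fun u => s + {D + u, D + D * (D / u)}
  refine ⟨D.divisors.image f, ?_, ?_⟩
  · intro m hm
    rw [mem_image] at hm
    obtain ⟨u, hu, rfl⟩ := hm
    rw [Nat.mem_divisors] at hu
    obtain ⟨⟨c, hc⟩, _⟩ := hu
    have hu0 : 0 < u := Nat.pos_of_ne_zero fun h => by subst h; simp at hc; omega
    have hc0 : 0 < c := Nat.pos_of_ne_zero fun h => by subst h; simp at hc; omega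
    have hdiv : D / u = c := by rw [hc]; exact Nat.mul_div_cancel_left c hu0
    refine ⟨?_, ?_, ?_⟩
    · simp [f, hs1]
    · intro x hx
      simp only [f, Multiset.mem_add, Multiset.insert_eq_cons, Multiset.mem_cons,
        Multiset.mem_singleton] at hx
      rcases hx with hx | rfl | rfl
      · exact hs2 x hx
      · positivity
      · positivity
    · simp only [f]
      rw [rs_add, hdiv]
      refine Eq.trans ?_ hs3
      rw [hc]
      have h1 : (u : ℚ) ≠ 0 := by positivity
      have h2 : (c : ℚ) ≠ 0 := by positivity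
      have h3 : (c : ℚ) + 1 ≠ 0 := by positivity
      unfold rs
      simp only [Multiset.insert_eq_cons, Multiset.map_cons, Multiset.map_singleton,
        Multiset.sum_cons, Multiset.sum_singleton]
      push_cast
      have h4 : (u : ℚ) * c + u = u * (c + 1) := by ring
      have h5 : (u : ℚ) * c + u * c * c = u * c * (c + 1) := by ring
      rw [h4, h5]
      have key : (1 : ℚ) / ((u : ℚ) * (c + 1)) + 1 / ((u : ℚ) * c * (c + 1)) = 1 / ((u : ℚ) * c) := by
        field_simp
      linarith
  · rw [card_image_of_injOn]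
    intro u hu u' hu' huu
    rw [mem_coe, Nat.mem_divisors] at hu hu'
    simp only [f] at huu
    have h1 := add_left_cancel huu
    have hle : u ≤ D := Nat.le_of_dvd hD hu.1
    have hle' : u' ≤ D := Nat.le_of_dvd hD hu'.1
    have hmem : D + u ∈ ({D + u', D + D * (D / u')} : Multiset ℕ) := by
      rw [← h1]; simp
    have hmem' : D + u' ∈ ({D + u, D + D * (D / u)} : Multiset ℕ) := by
      rw [h1]; simp
    simp only [Multiset.insert_eq_cons, Multiset.mem_cons, Multiset.mem_singleton] at hmem hmem'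
    rcases hmem with h2 | h2
    · omega
    · rcases hmem' with h3 | h3
      · omega
      · -- both are equal to `D`
        have hu'0 : 0 < u' := Nat.pos_of_dvd_of_pos hu'.1 hD
        have hu0 : 0 < u := Nat.pos_of_dvd_of_pos hu.1 hD
        have h4 : 1 ≤ D / u' := Nat.div_pos hle' hu'0
        have h5 : 1 ≤ D / u := Nat.div_pos hle hu0
        have h6 : D ≤ D * (D / u') := Nat.le_mul_of_pos_right _ h4
        have h7 : D ≤ D * (D / u) := Nat.le_mul_of_pos_right _ h5
        omega

lemma LB.succ {t K : ℕ} (h : LB t K) : LB (t + 1) K := by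
  classical
  obtain ⟨F, hF, hK⟩ := h
  let f : Multiset ℕ → Multiset ℕ := fun s => 2 ::ₘ s.map (fun x => 2 * x)
  have hinj : Function.Injective f := by
    intro s u hsu
    simp only [f, Multiset.cons_inj_right] at hsu
    exact Multiset.map_injective (fun a b hab => by simpa using hab) hsu
  refine ⟨F.image f, ?_, ?_⟩
  · intro m hm
    rw [mem_image] at hm
    obtain ⟨s, hs, rfl⟩ := hm
    obtain ⟨h1, h2, h3⟩ := hF s hs
    refine ⟨?_, ?_, ?_⟩
    · simp [f, h1]
    · intro x hx
      simp only [f, Multiset.mem_cons, Multiset.mem_map] at hx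
      rcases hx with rfl | ⟨y, hy, rfl⟩
      · norm_num
      · have := h2 y hy
        positivity
    · simp only [f]
      rw [rs_cons]
      have h4 : rs (s.map (fun x => 2 * x)) = (1 / 2) * rs s := by
        unfold rs
        rw [Multiset.map_map, ← Multiset.sum_map_mul_left]
        congr 1
        refine Multiset.map_congr rfl fun x _ => ?_
        simp only [Function.comp_apply]
        push_cast
        rw [one_div_mul_one_div]
      rw [h4, h3]
      norm_num
  · rw [card_image_of_injective _ hinj]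
    exact hK

lemma LB.mono {t t' K : ℕ} (h : LB t K) (htt : t ≤ t') : LB t' K := by
  induction t', htt using Nat.le_induction with
  | base => exact h
  | succ n _ ih => exact ih.succ

lemma LB.weaken {t K K' : ℕ} (h : LB t K) (hK : K' ≤ K) : LB t K' := by
  obtain ⟨F, hF, h1⟩ := h
  exact ⟨F, hF, hK.trans h1⟩

end Pool.Agent.Lib_helper83.EF
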