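import Mathlib

/-!
# Collisions of subset products modulo a power of two
-/

set_option autoImplicit false

namespace Pool.Agent.Lib_helper83.EF

open Finset

/-- the number of ways to write `n` as an ordered product of `card ι` primes is at most
`(card ι)!` -/
lemma card_prod_eq_le {ι : Type} [Fintype ι] [DecidableEq ι] (Q : Finset ℕ)
    (hQ : ∀ p ∈ Q, p.Prime) (n : ℕ) :
    ((Fintype.piFinset (fun _ : ι => Q)).filter (fun f => ∏ i, f i = n)).card
      ≤ (Fintype.card ι).factorial := by
  classical
  rcases ((Fintype.piFinset (fun _ : ι => Q)).filter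
    (fun f => ∏ i, f i = n)).eq_empty_or_nonempty with h0 | ⟨f₀, hf₀⟩
  · rw [h0]; simp
  · set en := Fintype.equivFin ι with hen
    let L : (ι → ℕ) → List ℕ := fun f => List.ofFn (fun i => f (en.symm i))
    have hLprod : ∀ f : ι → ℕ, (L f).prod = ∏ i, f i := by
      intro f
      simp only [L, List.prod_ofFn]
      exact Equiv.prod_comp en.symm f
    have hperm : ∀ f ∈ (Fintype.piFinset (fun _ : ι => Q)).filter (fun f => ∏ i, f i = n),
        (L f).Perm n.primeFactorsList := by
      intro f hf
      rw [mem_filter, Fintype.mem_piFinset] at hf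
      refine Nat.primeFactorsList_unique ((hLprod f).trans hf.2) ?_
      intro p hp
      simp only [L, List.mem_ofFn] at hp
      obtain ⟨i, rfl⟩ := hp
      exact hQ _ (hf.1 _)
    have hlen : n.primeFactorsList.length = Fintype.card ι := by
      rw [← (hperm f₀ hf₀).length_eq]
      simp [L]
    have hinj : Set.InjOn L (↑((Fintype.piFinset (fun _ : ι => Q)).filter
        (fun f => ∏ i, f i = n)) : Set (ι → ℕ)) := by
      intro f _ g _ hfg
      have h1 : (fun i => f (en.symm i)) = (fun i => g (en.symm i)) :=
        List.ofFn_injective hfg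
      funext i
      have := congrFun h1 (en i)
      simpa using this
    calc ((Fintype.piFinset (fun _ : ι => Q)).filter (fun f => ∏ i, f i = n)).card
        ≤ (n.primeFactorsList.permutations.toFinset).card := by
          refine card_le_card_of_injOn L ?_ hinj
          intro f hf
          rw [mem_coe, List.mem_toFinset, List.mem_permutations]
          exact hperm f hf
      _ ≤ n.primeFactorsList.permutations.length := List.toFinset_card_le _
      _ = (Fintype.card ι).factorial := by rw [List.length_permutations, hlen]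

/-- subset product -/
def al {w : ℕ} (p : Fin w → ℕ) (S : Finset (Fin w)) : ℕ := ∏ j ∈ S, p j

lemma al_inter_mul {w : ℕ} (p : Fin w → ℕ) (S T : Finset (Fin w)) :
    al p S = al p (S ∩ T) * al p (S \ T) := by
  unfold al
  rw [← prod_union (disjoint_left.mpr fun x hx hy => by
    rw [mem_inter] at hx; rw [mem_sdiff] at hy; exact hy.2 hx.2)]
  congr 1
  ext x
  simp only [mem_union, mem_inter, mem_sdiff]
  tauto

/-- For a pair of subsets with `r ≤ #(S \ T)`, few tuples of primes give a collision. -/
lemma card_far {w r a : ℕ} (Q : Finset ℕ) (hQ : ∀ p ∈ Q, p.Prime ∧ Odd p ∧ p < 2 ^ a)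
    (S T : Finset (Fin w)) (hr : r ≤ (S \ T).card) :
    ((Fintype.piFinset (fun _ : Fin w => Q)).filter
      (fun p => al p S ≡ al p T [MOD 2 ^ (a * r)])).card
      ≤ r.factorial * Q.card ^ (w - r) := by
  classical
  obtain ⟨J, hJS, hJ⟩ := exists_subset_card_eq hr
  set P := fun p : Fin w → ℕ => al p S ≡ al p T [MOD 2 ^ (a * r)] with hP
  set A := (Fintype.piFinset (fun _ : Fin w => Q)).filter P with hA
  let res : (Fin w → ℕ) → ({x : Fin w // x ∉ J} → ℕ) := fun p x => p x.1
  have hcard : Fintype.card {x : Fin w // x ∉ J} = w - r := by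
    rw [Fintype.card_subtype_compl, Fintype.card_coe, hJ]
    simp
  have hmap : ∀ p ∈ A, res p ∈ Fintype.piFinset (fun _ : {x : Fin w // x ∉ J} => Q) := by
    intro p hp
    rw [hA, mem_filter, Fintype.mem_piFinset] at hp
    rw [Fintype.mem_piFinset]
    intro x
    exact hp.1 _
  rw [card_eq_sum_card_fiberwise hmap]
  calc ∑ u ∈ Fintype.piFinset (fun _ : {x : Fin w // x ∉ J} => Q),
        (A.filter (fun p => res p = u)).card
      ≤ ∑ _u ∈ Fintype.piFinset (fun _ : {x : Fin w // x ∉ J} => Q), r.factorial := by
        refine sum_le_sum fun u _ => ?_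
        rcases (A.filter (fun p => res p = u)).eq_empty_or_nonempty with h0 | ⟨p₀, hp₀⟩
        · rw [h0]; simp
        · -- all members of the fibre have the same product over `J`
          let c : ℕ := ∏ j : {x : Fin w // x ∈ J}, p₀ j.1
          have hcJ : Fintype.card {x : Fin w // x ∈ J} = r := by
            rw [Fintype.card_coe, hJ]
          have key : ∀ p ∈ A.filter (fun p => res p = u),
              (∏ j : {x : Fin w // x ∈ J}, p j.1) = c := by
            intro p hp
            have out : ∀ q ∈ A.filter (fun p => res p = u), ∀ (x : Fin w) (hx : x ∉ J),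
                q x = u ⟨x, hx⟩ := by
              intro q hq x hx
              have := (mem_filter.mp hq).2
              exact congrFun this ⟨x, hx⟩
            have hsame : ∀ x ∉ J, p x = p₀ x := fun x hx => by
              rw [out p hp x hx, out p₀ hp₀ x hx]
            have hmem : ∀ q ∈ A.filter (fun p => res p = u), (∀ x, q x ∈ Q) ∧ P q := by
              intro q hq
              have := (mem_filter.mp hq).1
              rw [hA, mem_filter, Fintype.mem_piFinset] at this
              exact this
            have hprodJ : ∀ q : Fin w → ℕ, (∏ j : {x : Fin w // x ∈ J}, q j.1) = ∏ j ∈ J, q j :=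
              fun q => prod_coe_sort J q
            have hsplit : ∀ q : Fin w → ℕ, al q S = (∏ j ∈ J, q j) * ∏ j ∈ S \ J, q j := by
              intro q
              unfold al
              rw [mul_comm, prod_sdiff]
              exact hJS.trans sdiff_subset
            have hT : al p T = al p₀ T := by
              unfold al
              refine prod_congr rfl fun x hx => hsame x fun hxJ => ?_
              have := hJS hxJ
              rw [mem_sdiff] at this
              exact this.2 hx
            have hSJ : ∏ j ∈ S \ J, p j = ∏ j ∈ S \ J, p₀ j :=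
              prod_congr rfl fun x hx => hsame x (mem_sdiff.mp hx).2
            have h1 : (∏ j ∈ J, p j) * (∏ j ∈ S \ J, p₀ j) ≡
                (∏ j ∈ J, p₀ j) * (∏ j ∈ S \ J, p₀ j) [MOD 2 ^ (a * r)] := by
              have e1 := (hmem p hp).2
              have e2 := (hmem p₀ hp₀).2
              simp only [hP] at e1 e2
              rw [hT] at e1
              have e3 := e1.trans e2.symm
              rw [hsplit p, hsplit p₀, hSJ] at e3
              exact e3
            have hodd : Nat.Coprime (2 ^ (a * r)) (∏ j ∈ S \ J, p₀ j) := by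
              refine Nat.Coprime.pow_left _ ?_
              refine Nat.Coprime.prod_right fun j _ => ?_
              exact Nat.coprime_two_left.mpr ((hQ _ ((hmem p₀ hp₀).1 j)).2.1)
            have h2 : (∏ j ∈ J, p j) ≡ (∏ j ∈ J, p₀ j) [MOD 2 ^ (a * r)] :=
              Nat.ModEq.cancel_right_of_coprime hodd h1
            have hlt : ∀ q : Fin w → ℕ, (∀ x, q x ∈ Q) → ∏ j ∈ J, q j < 2 ^ (a * r) ∨ r = 0 := by
              intro q hq
              rcases Nat.eq_zero_or_pos r with h0 | hpos
              · right; exact h0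
              · left
                have hne : J.Nonempty := by
                  rw [← card_pos, hJ]; exact hpos
                calc ∏ j ∈ J, q j < ∏ _j ∈ J, 2 ^ a :=
                      prod_lt_prod_of_nonempty (fun j _ => (hQ _ (hq j)).1.pos)
                        (fun j _ => (hQ _ (hq j)).2.2) hne
                  _ = 2 ^ (a * r) := by rw [prod_const, hJ, pow_mul]
            rw [hprodJ]
            show _ = ∏ j : {x : Fin w // x ∈ J}, p₀ j.1
            rw [hprodJ]
            rcases hlt p (hmem p hp).1 with h3 | h3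
            · rcases hlt p₀ (hmem p₀ hp₀).1 with h4 | h4
              · exact Nat.ModEq.eq_of_lt_of_lt h2 h3 h4
              · rw [h4] at hJ
                rw [card_eq_zero.mp hJ]; simp
            · rw [h3] at hJ
              rw [card_eq_zero.mp hJ]; simp
          have hle := card_prod_eq_le (ι := {x : Fin w // x ∈ J}) Q (fun p hp => (hQ p hp).1) c
          rw [hcJ] at hle
          refine le_trans (card_le_card_of_injOn (fun p => fun j : {x : Fin w // x ∈ J} => p j.1)
            ?_ ?_) hle
          · intro p hp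
            rw [mem_coe, mem_filter, Fintype.mem_piFinset]
            refine ⟨fun j => ?_, key p hp⟩
            have := (mem_filter.mp hp).1
            rw [hA, mem_filter, Fintype.mem_piFinset] at this
            exact this.1 _
          · intro p hp q hq hpq
            funext x
            by_cases hx : x ∈ J
            · exact congrFun hpq ⟨x, hx⟩
            · have h1 := congrFun (mem_filter.mp hp).2 ⟨x, hx⟩
              have h2 := congrFun (mem_filter.mp hq).2 ⟨x, hx⟩
              exact h1.trans h2.symm
    _ = r.factorial * Q.card ^ (w - r) := by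
        rw [sum_const, Fintype.card_piFinset, prod_const, card_univ, hcard, smul_eq_mul, mul_comm]

/-- number of collisions of subset products modulo `m` -/
def E1 {w : ℕ} (p : Fin w → ℕ) (m : ℕ) : ℕ :=
  ((univ : Finset (Finset (Fin w) × Finset (Fin w))).filter
    (fun q => al p q.1 ≡ al p q.2 [MOD m])).card

lemma card_small_subsets (w r : ℕ) :
    ((univ : Finset (Finset (Fin w))).filter (fun U => U.card < r)).card ≤ (w + 1) ^ r := by
  classical
  have h1 : ((univ : Finset (Finset (Fin w))).filter (fun U => U.card < r)) =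
      (range r).biUnion (fun i => powersetCard i (univ : Finset (Fin w))) := by
    ext U
    simp only [mem_filter, mem_univ, true_and, mem_biUnion, mem_range, mem_powersetCard,
      subset_univ]
    constructor
    · intro h; exact ⟨U.card, h, rfl⟩
    · rintro ⟨i, hi, rfl⟩; exact hi
  rw [h1]
  calc ((range r).biUnion (fun i => powersetCard i (univ : Finset (Fin w)))).card
      ≤ ∑ i ∈ range r, (powersetCard i (univ : Finset (Fin w))).card := card_biUnion_le
    _ = ∑ i ∈ range r, w.choose i := by
        refine sum_congr rfl fun i _ => ?_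
        rw [card_powersetCard, card_univ, Fintype.card_fin]
    _ ≤ ∑ i ∈ range (r + 1), w ^ i * 1 ^ (r - i) * (r.choose i) := by
        refine (sum_le_sum_of_subset (range_subset_range.mpr (Nat.le_succ r))).trans ?_
        refine sum_le_sum fun i hi => ?_
        rw [one_pow, mul_one]
        have h2 : 1 ≤ r.choose i := Nat.choose_pos (Nat.lt_succ_iff.mp (mem_range.mp hi))
        calc w.choose i ≤ w ^ i := Nat.choose_le_pow w i
          _ = w ^ i * 1 := (mul_one _).symm
          _ ≤ w ^ i * r.choose i := Nat.mul_le_mul_left _ h2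
    _ = (w + 1) ^ r := (add_pow w 1 r).symm

lemma card_close_pairs (w r : ℕ) :
    ((univ : Finset (Finset (Fin w) × Finset (Fin w))).filter
      (fun q => (q.1 \ q.2).card < r ∧ (q.2 \ q.1).card < r)).card
      ≤ 2 ^ w * (w + 1) ^ (2 * r) := by
  classical
  set A := (univ : Finset (Finset (Fin w))).filter (fun U => U.card < r) with hA
  have h1 : ((univ : Finset (Finset (Fin w) × Finset (Fin w))).filter
      (fun q => (q.1 \ q.2).card < r ∧ (q.2 \ q.1).card < r)).card ≤
      ((univ : Finset (Finset (Fin w))) ×ˢ (A ×ˢ A)).card := by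
    refine card_le_card_of_injOn (fun q => (q.1, (q.1 \ q.2, q.2 \ q.1))) ?_ ?_
    · intro q hq
      rw [mem_coe, mem_filter] at hq
      rw [mem_coe, mem_product, mem_product, hA, mem_filter, mem_filter]
      exact ⟨mem_univ _, ⟨mem_univ _, hq.2.1⟩, ⟨mem_univ _, hq.2.2⟩⟩
    · intro q _ q' _ h
      simp only [Prod.mk.injEq] at h
      obtain ⟨h1, h2, h3⟩ := h
      refine Prod.ext h1 ?_
      ext x
      have e2 : x ∈ q.1 \ q.2 ↔ x ∈ q'.1 \ q'.2 := by rw [h2]
      have e3 : x ∈ q.2 \ q.1 ↔ x ∈ q'.2 \ q'.1 := by rw [h3]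
      rw [mem_sdiff, mem_sdiff, ← h1] at e2
      rw [mem_sdiff, mem_sdiff, ← h1] at e3
      tauto
  refine h1.trans ?_
  rw [card_product, card_product]
  have h2 : (univ : Finset (Finset (Fin w))).card = 2 ^ w := by simp
  rw [h2]
  have h3 : A.card ≤ (w + 1) ^ r := card_small_subsets w r
  calc 2 ^ w * (A.card * A.card) ≤ 2 ^ w * ((w + 1) ^ r * (w + 1) ^ r) :=
        Nat.mul_le_mul_left _ (Nat.mul_le_mul h3 h3)
    _ = 2 ^ w * (w + 1) ^ (2 * r) := by rw [two_mul, pow_add]

/-- The average over tuples of primes of the number of collisions. -/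
lemma sum_E1_le {w r a : ℕ} (Q : Finset ℕ) (hQ : ∀ p ∈ Q, p.Prime ∧ Odd p ∧ p < 2 ^ a) :
    ∑ p ∈ Fintype.piFinset (fun _ : Fin w => Q), E1 p (2 ^ (a * r)) ≤
      4 ^ w * (r.factorial * Q.card ^ (w - r)) + 2 ^ w * (w + 1) ^ (2 * r) * Q.card ^ w := by
  classical
  set PF := Fintype.piFinset (fun _ : Fin w => Q) with hPF
  have hPFc : PF.card = Q.card ^ w := by
    rw [hPF, Fintype.card_piFinset, prod_const, card_univ, Fintype.card_fin]
  set C := fun q : Finset (Fin w) × Finset (Fin w) =>
    (q.1 \ q.2).card < r ∧ (q.2 \ q.1).card < r with hC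
  have h1 : ∑ p ∈ PF, E1 p (2 ^ (a * r)) =
      ∑ q : Finset (Fin w) × Finset (Fin w),
        (PF.filter (fun p => al p q.1 ≡ al p q.2 [MOD 2 ^ (a * r)])).card := by
    unfold E1
    simp only [card_filter]
    rw [sum_comm]
  have h2 : ∀ q : Finset (Fin w) × Finset (Fin w),
      (PF.filter (fun p => al p q.1 ≡ al p q.2 [MOD 2 ^ (a * r)])).card ≤
        r.factorial * Q.card ^ (w - r) + if C q then Q.card ^ w else 0 := by
    intro q
    by_cases hq : C q
    · rw [if_pos hq]
      exact (card_filter_le _ _).trans (hPFc.le.trans (Nat.le_add_left _ _))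
    · rw [if_neg hq, add_zero]
      simp only [hC, not_and_or, not_lt] at hq
      rcases hq with hq | hq
      · exact card_far Q hQ q.1 q.2 hq
      · refine le_trans (le_of_eq ?_) (card_far Q hQ q.2 q.1 hq)
        congr 1
        refine filter_congr fun p _ => ?_
        exact ⟨Nat.ModEq.symm, Nat.ModEq.symm⟩
  rw [h1]
  refine (sum_le_sum fun q _ => h2 q).trans ?_
  rw [sum_add_distrib, sum_const, smul_eq_mul, ← sum_filter, sum_const, smul_eq_mul]
  refine Nat.add_le_add (le_of_eq ?_) (Nat.mul_le_mul_right _ (card_close_pairs w r))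
  congr 1
  simp only [card_univ, Fintype.card_prod, Fintype.card_finset, Fintype.card_fin]
  rw [← mul_pow]; norm_num

/-- Some tuple of primes has few collisions. -/
lemma exists_E1_le {w r a : ℕ} (hr : r ≤ w) (Q : Finset ℕ) (hQ0 : Q.Nonempty)
    (hQ : ∀ p ∈ Q, p.Prime ∧ Odd p ∧ p < 2 ^ a) :
    ∃ p : Fin w → ℕ, (∀ j, p j ∈ Q) ∧
      E1 p (2 ^ (a * r)) * Q.card ^ r ≤
        4 ^ w * r.factorial + 2 ^ w * (w + 1) ^ (2 * r) * Q.card ^ r := by
  classical
  have hc : 0 < Q.card := card_pos.mpr hQ0
  set PF := Fintype.piFinset (fun _ : Fin w => Q) with hPF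
  have hPFc : PF.card = Q.card ^ w := by
    rw [hPF, Fintype.card_piFinset, prod_const, card_univ, Fintype.card_fin]
  have hne : PF.Nonempty := by rw [← card_pos, hPFc]; positivity
  have h1 := sum_E1_le (w := w) (r := r) Q hQ
  by_contra hcon
  push Not at hcon
  have h2 : ∑ p ∈ PF, (4 ^ w * r.factorial + 2 ^ w * (w + 1) ^ (2 * r) * Q.card ^ r) <
      ∑ p ∈ PF, E1 p (2 ^ (a * r)) * Q.card ^ r := by
    refine sum_lt_sum_of_nonempty hne fun p hp => hcon p ?_
    rw [hPF, Fintype.mem_piFinset] at hp
    exact hp
  rw [sum_const, smul_eq_mul, ← sum_mul, hPFc] at h2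
  have h3 : (∑ p ∈ PF, E1 p (2 ^ (a * r))) * Q.card ^ r ≤
      (4 ^ w * (r.factorial * Q.card ^ (w - r)) + 2 ^ w * (w + 1) ^ (2 * r) * Q.card ^ w) *
        Q.card ^ r := Nat.mul_le_mul_right _ h1
  have h4 : (4 ^ w * (r.factorial * Q.card ^ (w - r)) + 2 ^ w * (w + 1) ^ (2 * r) * Q.card ^ w) *
        Q.card ^ r =
      Q.card ^ w * (4 ^ w * r.factorial + 2 ^ w * (w + 1) ^ (2 * r) * Q.card ^ r) := by
    have h5 : Q.card ^ w = Q.card ^ (w - r) * Q.card ^ r := by
      rw [← pow_add, Nat.sub_add_cancel hr]
    calc (4 ^ w * (r.factorial * Q.card ^ (w - r)) + 2 ^ w * (w + 1) ^ (2 * r) * Q.card ^ w) *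
        Q.card ^ r
        = 4 ^ w * r.factorial * (Q.card ^ (w - r) * Q.card ^ r) +
          2 ^ w * (w + 1) ^ (2 * r) * Q.card ^ w * Q.card ^ r := by ring
      _ = 4 ^ w * r.factorial * Q.card ^ w +
          2 ^ w * (w + 1) ^ (2 * r) * Q.card ^ w * Q.card ^ r := by rw [← h5]
      _ = _ := by ring
  rw [h4] at h3
  exact absurd (h2.trans_le h3) (lt_irrefl _)

end Pool.Agent.Lib_helper83.EF
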