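import Mathlib
import Pool.Agent.Lib_helper83.EF.Interface

/-!
# Comparison of residue classes
-/

set_option autoImplicit false

namespace Pool.Agent.Lib_helper83.EF

open Finset

lemma e_zero : e 0 = 1 := by simp [e]

lemma e_add (x y : ℝ) : e (x + y) = e x * e y := by
  unfold e
  rw [← Complex.exp_add]
  congr 1
  push_cast
  ring

lemma e_nat_mul (x : ℝ) (n : ℕ) : e (n * x) = e x ^ n := by
  unfold e
  rw [← Complex.exp_nat_mul]
  congr 1
  push_cast
  ring

lemma e_eq_one_iff (x : ℝ) : e x = 1 ↔ ∃ n : ℤ, x = n := by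
  unfold e
  rw [Complex.exp_eq_one_iff]
  have hpi : (2 * (Real.pi : ℂ) * Complex.I) ≠ 0 := by
    simp [Real.pi_ne_zero, Complex.I_ne_zero]
  constructor
  · rintro ⟨n, hn⟩
    refine ⟨n, ?_⟩
    have h1 : ((x : ℂ) - n) * (2 * (Real.pi : ℂ) * Complex.I) = 0 := by
      linear_combination hn
    rcases mul_eq_zero.mp h1 with h2 | h2
    · have h3 : (x : ℂ) = ((n : ℝ) : ℂ) := by
        push_cast
        linear_combination h2
      exact_mod_cast h3
    · exact absurd h2 hpi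
  · rintro ⟨n, rfl⟩
    refine ⟨n, ?_⟩
    push_cast
    ring

lemma e_int (n : ℤ) : e n = 1 := (e_eq_one_iff _).mpr ⟨n, rfl⟩

/-- orthogonality -/
lemma sum_e (g n : ℕ) : ∑ h ∈ range g, e ((n : ℝ) * (h : ℝ) / (g : ℝ)) =
    if g ∣ n then (g : ℂ) else 0 := by
  rcases Nat.eq_zero_or_pos g with h0 | hg
  · subst h0; simp
  have hgR : (g : ℝ) ≠ 0 := by positivity
  have h1 : ∀ h ∈ range g, e ((n : ℝ) * (h : ℝ) / (g : ℝ)) = e ((n : ℝ) / g) ^ h := by
    intro h _
    rw [← e_nat_mul]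
    congr 1
    ring
  rw [sum_congr rfl h1]
  split_ifs with hd
  · obtain ⟨c, rfl⟩ := hd
    have h2 : e (((g * c : ℕ) : ℝ) / g) = 1 := by
      rw [e_eq_one_iff]
      refine ⟨c, ?_⟩
      push_cast
      field_simp
    rw [h2]
    simp
  · have h2 : e ((n : ℝ) / g) ≠ 1 := by
      intro h
      obtain ⟨m, hm⟩ := (e_eq_one_iff _).mp h
      apply hd
      rw [div_eq_iff hgR] at hm
      have h3 : (n : ℤ) = m * g := by exact_mod_cast hm
      have h4 : (g : ℤ) ∣ n := ⟨m, by rw [h3, mul_comm]⟩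
      exact_mod_cast h4
    rw [geom_sum_eq h2]
    have h3 : e ((n : ℝ) / g) ^ g = 1 := by
      rw [← e_nat_mul, e_eq_one_iff]
      refine ⟨n, ?_⟩
      push_cast
      field_simp
    rw [h3, sub_self, zero_div]

/-- grouping fractions by their reduced denominators -/
lemma sum_reduced {M : Type} [AddCommMonoid M] (ψ : ℝ → M) (g : ℕ) :
    ∑ h ∈ range g, ψ ((h : ℝ) / (g : ℝ)) =
      ∑ d ∈ g.divisors, ∑ h ∈ (range d).filter (fun h => Nat.Coprime h d), ψ ((h : ℝ) / (d : ℝ)) := by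
  rcases Nat.eq_zero_or_pos g with h0 | hg
  · subst h0; simp
  have hmap : ∀ h ∈ range g, g / Nat.gcd g h ∈ g.divisors := by
    intro h _
    rw [Nat.mem_divisors]
    exact ⟨Nat.div_dvd_of_dvd (Nat.gcd_dvd_left g h), hg.ne'⟩
  rw [← sum_fiberwise_of_maps_to hmap]
  refine sum_congr rfl fun d hd => ?_
  rw [Nat.mem_divisors] at hd
  obtain ⟨⟨c, hc⟩, _⟩ := hd
  have hd0 : 0 < d := Nat.pos_of_ne_zero fun h => by subst h; simp at hc; omega
  have hc0 : 0 < c := Nat.pos_of_ne_zero fun h => by subst h; simp at hc; omega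
  have hgc : ∀ h, g / Nat.gcd g h = d ↔ Nat.gcd g h = c := by
    intro h
    have h1 := Nat.gcd_dvd_left g h
    have h2 : 0 < Nat.gcd g h := Nat.gcd_pos_of_pos_left _ hg
    constructor
    · intro h3
      have h4 : g = Nat.gcd g h * d := by
        rw [← h3, Nat.mul_div_cancel' h1]
      have h5 : d * c = d * Nat.gcd g h := by
        rw [← hc, mul_comm d (Nat.gcd g h)]
        exact h4
      exact (Nat.eq_of_mul_eq_mul_left hd0 h5).symm
    · intro h3
      rw [h3, hc]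
      exact Nat.mul_div_cancel _ hc0
  symm
  refine sum_nbij' (fun h => h * c) (fun h => h / c) ?_ ?_ ?_ ?_ ?_
  · intro h hh
    rw [mem_filter, mem_range] at hh
    rw [mem_filter, mem_range, hgc]
    refine ⟨?_, ?_⟩
    · rw [hc]; exact Nat.mul_lt_mul_of_pos_right hh.1 hc0
    · rw [hc, Nat.gcd_mul_right, Nat.gcd_comm, hh.2.gcd_eq_one, one_mul]
  · intro h hh
    rw [mem_filter, mem_range, hgc] at hh
    obtain ⟨h1, h2⟩ := hh
    have h3 : c ∣ h := by rw [← h2]; exact Nat.gcd_dvd_right g h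
    obtain ⟨u, rfl⟩ := h3
    rw [mem_filter, mem_range, Nat.mul_div_cancel_left _ hc0]
    refine ⟨?_, ?_⟩
    · rw [hc, mul_comm d c] at h1
      exact lt_of_mul_lt_mul_left h1 (Nat.zero_le _)
    · rw [hc, mul_comm c u, Nat.gcd_mul_right] at h2
      have h4 : Nat.gcd d u = 1 := by
        have : Nat.gcd d u * c = 1 * c := by rw [h2, one_mul]
        exact Nat.eq_of_mul_eq_mul_right hc0 this
      rw [Nat.coprime_comm]
      exact h4
  · intro h _
    exact Nat.mul_div_cancel _ hc0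
  · intro h hh
    rw [mem_filter, mem_range, hgc] at hh
    have h3 : c ∣ h := by rw [← hh.2]; exact Nat.gcd_dvd_right g h
    exact Nat.div_mul_cancel h3
  · intro h _
    congr 1
    rw [hc]
    have h1 : (c : ℝ) ≠ 0 := by positivity
    have h2 : (d : ℝ) ≠ 0 := by positivity
    push_cast
    field_simp

/-- number of `g ≤ G` with `g ≡ c mod N` and `d ∣ g` -/
def nc (N G c d : ℕ) : ℕ := ((range (G + 1)).filter (fun g => g ≡ c [MOD N] ∧ d ∣ g)).card

lemma nc_eq_zero {N G c d : ℕ} (hc : Nat.Coprime c N) (hd : ¬ Nat.Coprime d N) :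
    nc N G c d = 0 := by
  unfold nc
  rw [card_eq_zero, filter_eq_empty_iff]
  rintro g _ ⟨h1, h2⟩
  apply hd
  have h3 : Nat.Coprime g N := by
    have := h1.gcd_eq
    unfold Nat.Coprime at hc ⊢
    rw [this, hc]
  exact Nat.Coprime.coprime_dvd_left h2 h3

lemma nc_bounds {N G c d : ℕ} (hN : 0 < N) (hd0 : 0 < d) (hd : Nat.Coprime d N) :
    (G + 1) / (N * d) ≤ nc N G c d ∧ nc N G c d ≤ (G + 1) / (N * d) + 1 := by
  obtain ⟨v, hv1, hv2⟩ := Nat.chineseRemainder hd.symm c 0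
  have h1 : nc N G c d = (G + 1).count (· ≡ v [MOD N * d]) := by
    unfold nc
    rw [Nat.count_eq_card_filter_range]
    congr 1
    refine filter_congr fun g _ => ?_
    rw [← Nat.modEq_and_modEq_iff_modEq_mul hd.symm]
    constructor
    · rintro ⟨h1, h2⟩
      refine ⟨h1.trans hv1.symm, ?_⟩
      exact ((Nat.modEq_zero_iff_dvd).mpr h2).trans hv2.symm
    · rintro ⟨h1, h2⟩
      exact ⟨h1.trans hv1, (Nat.modEq_zero_iff_dvd).mp (h2.trans hv2)⟩
  rw [h1, Nat.count_modEq_card _ (Nat.mul_pos hN hd0)]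
  constructor
  · omega
  · split_ifs <;> omega

lemma abs_nc_sub_le {N G c c' d : ℕ} (hN : 0 < N) (hd0 : 0 < d) (hc : Nat.Coprime c N)
    (hc' : Nat.Coprime c' N) : |(nc N G c d : ℝ) - (nc N G c' d : ℝ)| ≤ 1 := by
  by_cases hd : Nat.Coprime d N
  · obtain ⟨h1, h2⟩ := nc_bounds (G := G) (c := c) hN hd0 hd
    obtain ⟨h3, h4⟩ := nc_bounds (G := G) (c := c') hN hd0 hd
    have h1' : (((G + 1) / (N * d) : ℕ) : ℝ) ≤ nc N G c d := by exact_mod_cast h1
    have h2' : (nc N G c d : ℝ) ≤ (((G + 1) / (N * d) : ℕ) : ℝ) + 1 := by exact_mod_cast h2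
    have h3' : (((G + 1) / (N * d) : ℕ) : ℝ) ≤ nc N G c' d := by exact_mod_cast h3
    have h4' : (nc N G c' d : ℝ) ≤ (((G + 1) / (N * d) : ℕ) : ℝ) + 1 := by exact_mod_cast h4
    rw [abs_le]
    constructor <;> linarith
  · rw [nc_eq_zero hc hd, nc_eq_zero hc' hd]
    simp

section main

variable {Ω : Type} [Fintype Ω] (T : Ω → ℕ)

/-- the generating exponential sum -/
noncomputable def Phi (x : ℝ) : ℂ := ∑ σ, e ((T σ : ℝ) * x)

/-- `g` times the number of pairs whose sum is divisible by `g` -/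
def Fc (g : ℕ) : ℕ :=
  g * ((univ : Finset (Ω × Ω)).filter (fun q => g ∣ T q.1 + T q.2)).card

/-- the part of reduced denominator `d` -/
noncomputable def fd (d : ℕ) : ℂ :=
  ∑ h ∈ (range d).filter (fun h => Nat.Coprime h d), Phi T ((h : ℝ) / (d : ℝ)) ^ 2

lemma Phi_sq (x : ℝ) : Phi T x ^ 2 = ∑ q : Ω × Ω, e (((T q.1 + T q.2 : ℕ) : ℝ) * x) := by
  unfold Phi
  rw [pow_two, sum_mul_sum, ← univ_product_univ, sum_product]
  refine sum_congr rfl fun a _ => sum_congr rfl fun b _ => ?_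
  rw [← e_add]
  congr 1
  push_cast
  ring

lemma Fc_eq (g : ℕ) : (Fc T g : ℂ) = ∑ h ∈ range g, Phi T ((h : ℝ) / (g : ℝ)) ^ 2 := by
  have h1 : ∀ h ∈ range g, Phi T ((h : ℝ) / (g : ℝ)) ^ 2 =
      ∑ q : Ω × Ω, e (((T q.1 + T q.2 : ℕ) : ℝ) * (h : ℝ) / (g : ℝ)) := by
    intro h _
    rw [Phi_sq]
    refine sum_congr rfl fun q _ => ?_
    congr 1
    ring
  rw [sum_congr rfl h1, sum_comm]
  simp only [sum_e]
  rw [← sum_filter, sum_const, nsmul_eq_mul]
  unfold Fc
  push_cast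
  ring

lemma Fc_eq_sum (g : ℕ) : (Fc T g : ℂ) = ∑ d ∈ g.divisors, fd T d := by
  rw [Fc_eq]
  exact sum_reduced (fun x => Phi T x ^ 2) g

/-- the class sum -/
def Ac (N G c : ℕ) : ℕ := ∑ g ∈ (range (G + 1)).filter (fun g => g ≡ c [MOD N]), Fc T g

lemma Ac_eq {N G c : ℕ} (hN : 2 ≤ N) (hc : Nat.Coprime c N) :
    (Ac T N G c : ℂ) = ∑ d ∈ Icc 1 G, (nc N G c d : ℂ) * fd T d := by
  unfold Ac
  push_cast
  have h0 : ∀ g ∈ (range (G + 1)).filter (fun g => g ≡ c [MOD N]),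
      (Fc T g : ℂ) = ∑ d ∈ Icc 1 G, if d ∣ g then fd T d else 0 := by
    intro g hg
    rw [mem_filter, mem_range] at hg
    have hg0 : g ≠ 0 := by
      rintro rfl
      have h1 := hg.2.gcd_eq
      rw [Nat.gcd_zero_left, hc.gcd_eq_one] at h1
      omega
    rw [Fc_eq_sum, ← sum_filter]
    refine sum_congr ?_ fun _ _ => rfl
    ext d
    rw [Nat.mem_divisors, mem_filter, mem_Icc]
    constructor
    · rintro ⟨h1, _⟩
      refine ⟨⟨Nat.pos_of_dvd_of_pos h1 (Nat.pos_of_ne_zero hg0), ?_⟩, h1⟩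
      have := Nat.le_of_dvd (Nat.pos_of_ne_zero hg0) h1
      omega
    · rintro ⟨_, h1⟩
      exact ⟨h1, hg0⟩
  rw [sum_congr rfl h0, sum_comm]
  refine sum_congr rfl fun d _ => ?_
  rw [← sum_filter, sum_const, nsmul_eq_mul, filter_filter]
  rfl

lemma sum_norm_fd_le (hLS : LSStatement) {G L : ℕ} (hG : G ^ 2 ≤ L) (hT : ∀ σ, T σ < L) :
    ∑ d ∈ Icc 1 G, ‖fd T d‖ ≤ 6 * (L : ℝ) *
      ((univ : Finset (Ω × Ω)).filter (fun q => T q.1 = T q.2)).card := by
  set r : ℕ → ℕ := fun n => ((univ : Finset Ω).filter (fun σ => T σ = n)).card with hr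
  have hPhi : ∀ (d h : ℕ), Phi T ((h : ℝ) / (d : ℝ)) =
      ∑ n ∈ range L, (r n : ℂ) * e ((n : ℝ) * (h : ℝ) / (d : ℝ)) := by
    intro d h
    unfold Phi
    rw [← sum_fiberwise_of_maps_to (s := (univ : Finset Ω)) (t := range L) (g := T)
      (fun σ _ => mem_range.mpr (hT σ))]
    refine sum_congr rfl fun n _ => ?_
    have h1 : ∀ σ ∈ (univ : Finset Ω).filter (fun σ => T σ = n),
        e ((T σ : ℝ) * ((h : ℝ) / (d : ℝ))) = e ((n : ℝ) * (h : ℝ) / (d : ℝ)) := by
      intro σ hσ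
      rw [mem_filter] at hσ
      rw [hσ.2]
      congr 1
      ring
    rw [sum_congr rfl h1, sum_const, nsmul_eq_mul]
  have h1 := hLS G L hG (fun n => (r n : ℂ))
  have h2 : ∑ d ∈ Icc 1 G, ‖fd T d‖ ≤
      ∑ d ∈ Icc 1 G, ∑ h ∈ (range d).filter (fun h => Nat.Coprime h d),
        ‖∑ n ∈ range L, (r n : ℂ) * e ((n : ℝ) * (h : ℝ) / (d : ℝ))‖ ^ 2 := by
    refine sum_le_sum fun d _ => ?_
    unfold fd
    refine (norm_sum_le _ _).trans (le_of_eq ?_)
    refine sum_congr rfl fun h _ => ?_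
    rw [norm_pow, hPhi]
  have h3 : ∑ n ∈ range L, ‖(r n : ℂ)‖ ^ 2 =
      (((univ : Finset (Ω × Ω)).filter (fun q => T q.1 = T q.2)).card : ℝ) := by
    rw [card_eq_sum_card_fiberwise (f := fun q : Ω × Ω => T q.1) (t := range L)
      (fun q _ => mem_coe.mpr (mem_range.mpr (hT q.1)))]
    push_cast
    refine sum_congr rfl fun n _ => ?_
    have h4 : (filter (fun q => T q.1 = n) ((univ : Finset (Ω × Ω)).filter
        (fun q => T q.1 = T q.2))).card = r n * r n := by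
      rw [hr]
      simp only
      rw [← card_product]
      congr 1
      ext q
      simp only [mem_filter, mem_univ, true_and, mem_product]
      constructor
      · rintro ⟨h1, h2⟩
        exact ⟨h2, by rw [← h1, h2]⟩
      · rintro ⟨h1, h2⟩
        exact ⟨by rw [h1, h2], h1⟩
    rw [h4]
    rw [Complex.norm_natCast]
    push_cast
    ring
  rw [h3] at h1
  exact h2.trans h1

/-- The comparison theorem: if `T` has few coincidences, some `g ≡ -1 mod N` divides a sum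
`T σ + T τ`. -/
theorem exists_dvd_sum (hLS : LSStatement) {N G L : ℕ} (hN : 2 ≤ N) (hG : G ^ 2 ≤ L)
    (hT : ∀ σ, T σ < L) (P : Finset ℕ) (hP : ∀ p ∈ P, p.Prime ∧ p ≤ G ∧ ¬ p ∣ N)
    (hlarge : (N + 1) * (6 * L *
      ((univ : Finset (Ω × Ω)).filter (fun q => T q.1 = T q.2)).card) <
        P.card * (Fintype.card Ω) ^ 2) :
    ∃ g, 1 ≤ g ∧ g ≤ G ∧ N ∣ g + 1 ∧ ∃ σ τ, g ∣ T σ + T τ := by
  by_contra hcon
  push Not at hcon
  set E' : ℝ := 6 * (L : ℝ) *
    ((univ : Finset (Ω × Ω)).filter (fun q => T q.1 = T q.2)).card with hE'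
  have hfd : ∑ d ∈ Icc 1 G, ‖fd T d‖ ≤ E' := sum_norm_fd_le T hLS hG hT
  have hE0 : 0 ≤ E' := by positivity
  -- the class of `-1` is empty
  have hA0 : Ac T N G (N - 1) = 0 := by
    unfold Ac
    refine sum_eq_zero fun g hg => ?_
    rw [mem_filter, mem_range] at hg
    unfold Fc
    rcases Nat.eq_zero_or_pos g with h0 | hpos
    · rw [h0, zero_mul]
    · have h1 : N ∣ g + 1 := by
        have h2 : g + 1 ≡ (N - 1) + 1 [MOD N] := hg.2.add_right 1
        rw [Nat.sub_add_cancel (by omega)] at h2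
        have h3 : g + 1 ≡ 0 [MOD N] := h2.trans (by simp [Nat.ModEq])
        exact (Nat.modEq_zero_iff_dvd).mp h3
      have h2 : ((univ : Finset (Ω × Ω)).filter (fun q => g ∣ T q.1 + T q.2)) = ∅ := by
        rw [filter_eq_empty_iff]
        intro q _
        exact hcon g hpos (by omega) h1 q.1 q.2
      rw [h2, card_empty, mul_zero]
  have hcop : Nat.Coprime (N - 1) N := by
    have h1 : Nat.Coprime (N - 1) (N - 1 + 1) := by simp
    rwa [Nat.sub_add_cancel (by omega)] at h1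
  have hAc : ∀ c, Nat.Coprime c N → (Ac T N G c : ℝ) ≤ E' := by
    intro c hc
    have h1 : (Ac T N G c : ℂ) - (Ac T N G (N - 1) : ℂ) =
        ∑ d ∈ Icc 1 G, ((nc N G c d : ℂ) - (nc N G (N - 1) d : ℂ)) * fd T d := by
      rw [Ac_eq T hN hc, Ac_eq T hN hcop, ← sum_sub_distrib]
      exact sum_congr rfl fun d _ => by ring
    rw [hA0] at h1
    have h2 : ‖(Ac T N G c : ℂ) - ((0 : ℕ) : ℂ)‖ = (Ac T N G c : ℝ) := by
      rw [Nat.cast_zero, sub_zero, Complex.norm_natCast]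
    rw [← h2, h1]
    refine (norm_sum_le _ _).trans (le_trans (sum_le_sum fun d hd => ?_) hfd)
    rw [norm_mul]
    have h3 : ‖(nc N G c d : ℂ) - (nc N G (N - 1) d : ℂ)‖ ≤ 1 := by
      have h4 : (nc N G c d : ℂ) - (nc N G (N - 1) d : ℂ) =
          (((nc N G c d : ℝ) - (nc N G (N - 1) d : ℝ) : ℝ) : ℂ) := by push_cast; ring
      rw [h4, Complex.norm_real]
      exact abs_nc_sub_le (by omega) (mem_Icc.mp hd).1 hc hcop
    calc ‖(nc N G c d : ℂ) - (nc N G (N - 1) d : ℂ)‖ * ‖fd T d‖ ≤ 1 * ‖fd T d‖ :=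
          mul_le_mul_of_nonneg_right h3 (norm_nonneg _)
      _ = ‖fd T d‖ := one_mul _
  -- upper bound for the sum over primes
  have hup : ∑ p ∈ P, (Fc T p : ℝ) ≤ (N : ℝ) * E' := by
    have h1 : ∑ p ∈ P, (Fc T p : ℝ) ≤
        ∑ c ∈ (range N).filter (fun c => Nat.Coprime c N), (Ac T N G c : ℝ) := by
      have hmap : ∀ p ∈ P, p % N ∈ (range N).filter (fun c => Nat.Coprime c N) := by
        intro p hp
        rw [mem_filter, mem_range]
        refine ⟨Nat.mod_lt _ (by omega), ?_⟩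
        have h2 : Nat.Coprime p N := ((hP p hp).1.coprime_iff_not_dvd).mpr (hP p hp).2.2
        unfold Nat.Coprime at h2 ⊢
        rw [← h2]
        exact (Nat.mod_modEq p N).gcd_eq
      rw [← sum_fiberwise_of_maps_to hmap]
      refine sum_le_sum fun c _ => ?_
      unfold Ac
      push_cast
      refine sum_le_sum_of_subset_of_nonneg ?_ (fun _ _ _ => Nat.cast_nonneg _)
      intro p hp
      rw [mem_filter] at hp ⊢
      rw [mem_range]
      refine ⟨Nat.lt_succ_of_le (hP p hp.1).2.1, ?_⟩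
      rw [← hp.2]
      exact (Nat.mod_modEq p N).symm
    refine h1.trans ?_
    calc ∑ c ∈ (range N).filter (fun c => Nat.Coprime c N), (Ac T N G c : ℝ)
        ≤ ∑ _c ∈ (range N).filter (fun c => Nat.Coprime c N), E' :=
          sum_le_sum fun c hc => hAc c (mem_filter.mp hc).2
      _ = (((range N).filter (fun c => Nat.Coprime c N)).card : ℝ) * E' := by
          rw [sum_const, nsmul_eq_mul]
      _ ≤ (N : ℝ) * E' := by
          refine mul_le_mul_of_nonneg_right ?_ hE0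
          have := card_filter_le (range N) (fun c => Nat.Coprime c N)
          rw [card_range] at this
          exact_mod_cast this
  -- lower bound for the sum over primes
  have hlow : (P.card : ℝ) * (Fintype.card Ω : ℝ) ^ 2 - E' ≤ ∑ p ∈ P, (Fc T p : ℝ) := by
    have hone : fd T 1 = (Fintype.card Ω : ℂ) ^ 2 := by
      unfold fd
      have h1 : (range 1).filter (fun h => Nat.Coprime h 1) = {0} := by
        ext h; simp
      rw [h1, sum_singleton]
      unfold Phi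
      simp [e_zero]
    have h1 : ∀ p ∈ P, (Fintype.card Ω : ℝ) ^ 2 - ‖fd T p‖ ≤ (Fc T p : ℝ) := by
      intro p hp
      have hpp := (hP p hp).1
      have h2 : (Fc T p : ℂ) = (Fintype.card Ω : ℂ) ^ 2 + fd T p := by
        rw [Fc_eq_sum, hpp.divisors, sum_insert (by simpa using hpp.one_lt.ne), sum_singleton, hone]
      have h3 : ‖fd T p‖ ≥ (Fintype.card Ω : ℝ) ^ 2 - (Fc T p : ℝ) := by
        have h4 : fd T p = (((Fc T p : ℝ) - (Fintype.card Ω : ℝ) ^ 2 : ℝ) : ℂ) := by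
          push_cast
          rw [h2]; ring
        rw [h4, Complex.norm_real, Real.norm_eq_abs]
        have := neg_abs_le ((Fc T p : ℝ) - (Fintype.card Ω : ℝ) ^ 2)
        linarith
      linarith
    have h2 : ∑ p ∈ P, ‖fd T p‖ ≤ E' := by
      refine le_trans (sum_le_sum_of_subset_of_nonneg ?_ (fun _ _ _ => norm_nonneg _)) hfd
      intro p hp
      rw [mem_Icc]
      exact ⟨(hP p hp).1.one_lt.le, (hP p hp).2.1⟩
    calc (P.card : ℝ) * (Fintype.card Ω : ℝ) ^ 2 - E'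
        ≤ ∑ _p ∈ P, (Fintype.card Ω : ℝ) ^ 2 - ∑ p ∈ P, ‖fd T p‖ := by
          rw [sum_const, nsmul_eq_mul]; linarith
      _ = ∑ p ∈ P, ((Fintype.card Ω : ℝ) ^ 2 - ‖fd T p‖) := by rw [sum_sub_distrib]
      _ ≤ ∑ p ∈ P, (Fc T p : ℝ) := sum_le_sum h1
  have h5 : (P.card : ℝ) * (Fintype.card Ω : ℝ) ^ 2 ≤ ((N : ℝ) + 1) * E' := by linarith
  have h6 : (((N + 1) * (6 * L *
      ((univ : Finset (Ω × Ω)).filter (fun q => T q.1 = T q.2)).card) : ℕ) : ℝ) <
        ((P.card * (Fintype.card Ω) ^ 2 : ℕ) : ℝ) := by exact_mod_cast hlarge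
  push_cast at h6
  rw [hE'] at h5
  linarith

end main

end Pool.Agent.Lib_helper83.EF
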