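import Mathlib

/-!
# Chains of distinct unit fractions
-/

set_option autoImplicit false

namespace Pool.Agent.Lib_helper83.EF

open Finset

/-- sum of the reciprocals of a finite set -/
def fs (A : Finset ℕ) : ℚ := ∑ x ∈ A, (1 : ℚ) / (x : ℚ)

/-- `1 - 1 / D` is a sum of `t` distinct unit fractions -/
def DReach (t D : ℕ) : Prop :=
  0 < D ∧ ∃ A : Finset ℕ, A.card = t ∧ (∀ x ∈ A, 0 < x) ∧ fs A + 1 / (D : ℚ) = 1

/-- `1 - 1 / D` is a sum of `t` distinct unit fractions with denominators at most `D` -/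
def LReach (t D : ℕ) : Prop :=
  0 < D ∧ ∃ A : Finset ℕ, A.card = t ∧ (∀ x ∈ A, 0 < x ∧ x ≤ D) ∧ fs A + 1 / (D : ℚ) = 1

/-- there are at least `K` representations of `1` with `t` distinct terms -/
def DLB (t K : ℕ) : Prop :=
  ∃ F : Finset (Finset ℕ),
    (∀ A ∈ F, A.card = t ∧ (∀ x ∈ A, 0 < x) ∧ fs A = 1) ∧ K ≤ F.card

lemma lreach_one : LReach 1 2 := by
  refine ⟨by norm_num, {2}, by simp, by simp, ?_⟩
  unfold fs
  norm_num

lemma lreach_step {t D a : ℕ} (h : LReach t D) (ha : a ∣ D) : LReach (t + 1) (D * (a + 1)) := by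
  obtain ⟨hD, s, hs1, hs2, hs3⟩ := h
  obtain ⟨b, rfl⟩ := ha
  have ha0 : 0 < a := Nat.pos_of_mul_pos_right hD
  have hb0 : 0 < b := Nat.pos_of_mul_pos_left hD
  have hnew : b * (a + 1) ∉ s := by
    intro hmem
    have h1 := (hs2 _ hmem).2
    nlinarith
  refine ⟨by positivity, insert (b * (a + 1)) s, ?_, ?_, ?_⟩
  · rw [card_insert_of_notMem hnew, hs1]
  · intro x hx
    rcases mem_insert.mp hx with rfl | hx
    · refine ⟨by positivity, ?_⟩
      have : b * (a + 1) * 1 ≤ b * (a + 1) * a := Nat.mul_le_mul_left _ ha0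
      nlinarith
    · refine ⟨(hs2 x hx).1, (hs2 x hx).2.trans ?_⟩
      nlinarith
  · unfold fs
    rw [sum_insert hnew]
    refine Eq.trans ?_ hs3
    unfold fs
    have h1 : (a : ℚ) ≠ 0 := by positivity
    have h2 : (b : ℚ) ≠ 0 := by positivity
    have h3 : (a : ℚ) + 1 ≠ 0 := by positivity
    have key : (1 : ℚ) / ((b : ℚ) * (a + 1)) + 1 / ((a : ℚ) * b * (a + 1)) = 1 / ((a : ℚ) * b) := by
      field_simp
    push_cast
    linarith

/-- powers of two are reached quickly -/
lemma lreach_pow (j : ℕ) : ∃ E : ℕ, 0 < E ∧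
    LReach (1 + 2 * j) (2 ^ 2 ^ j * (2 ^ 2 ^ j - 1) * E) := by
  induction j with
  | zero => exact ⟨1, one_pos, by simpa using lreach_one⟩
  | succ j ih =>
    obtain ⟨E, hE, h⟩ := ih
    obtain ⟨Y, hY⟩ : ∃ Y : ℕ, 2 ^ 2 ^ j = Y + 1 :=
      ⟨2 ^ 2 ^ j - 1, (Nat.sub_add_cancel Nat.one_le_two_pow).symm⟩
    refine ⟨(Y + 1) * E, by positivity, ?_⟩
    rw [hY, Nat.add_sub_cancel] at h
    have h1 := lreach_step (a := Y + 1) h ⟨Y * E, by ring⟩
    have h2 := lreach_step (a := Y * (Y + 2)) h1 ⟨(Y + 1) * E, by ring⟩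
    have h3 : 2 ^ 2 ^ (j + 1) = (Y + 1) * (Y + 1) := by
      rw [pow_succ 2 j, pow_mul, hY]; ring
    have h4 : (Y + 1) * (Y + 1) - 1 = Y * (Y + 2) := by
      have : (Y + 1) * (Y + 1) = Y * (Y + 2) + 1 := by ring
      omega
    rw [h3, h4]
    have h5 : (Y + 1) * Y * E * (Y + 1 + 1) * (Y * (Y + 2) + 1) =
        (Y + 1) * (Y + 1) * (Y * (Y + 2)) * ((Y + 1) * E) := by ring
    rw [h5] at h2
    have h6 : 1 + 2 * j + 1 + 1 = 1 + 2 * (j + 1) := by ring
    rw [h6] at h2
    exact h2

/-- the main identity -/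
lemma dreach_main {t S N K q : ℕ} (h : LReach t S) (hN : 0 < N)
    (hK : 0 < K) (hq : 0 < q) (𝒟 : Finset ℕ)
    (hd0 : ∀ d ∈ 𝒟, 0 < d) (hd : ∀ d ∈ 𝒟, d ∣ S * N)
    (hsum : ∑ d ∈ 𝒟, d + q = N * K * q) : DReach (t + 𝒟.card) (S * N * K) := by
  classical
  obtain ⟨hS, s, hs1, hs2, hs3⟩ := h
  have hM : 0 < S * N * K * q := by positivity
  have hdM : ∀ d ∈ 𝒟, d ∣ S * N * K * q := fun d hdd => (hd d hdd).trans ⟨K * q, by ring⟩
  have hinj : Set.InjOn (fun d => S * N * K * q / d) (𝒟 : Set ℕ) := by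
    intro d hd1 d' hd2 hdd
    simp only at hdd
    have h1 := Nat.div_mul_cancel (hdM d hd1)
    have h2 := Nat.div_mul_cancel (hdM d' hd2)
    rw [hdd] at h1
    have h3 : 0 < S * N * K * q / d' := Nat.div_pos (Nat.le_of_dvd hM (hdM d' hd2)) (hd0 d' hd2)
    exact Nat.eq_of_mul_eq_mul_left h3 (h1.trans h2.symm)
  have hdisj : Disjoint s (𝒟.image (fun d => S * N * K * q / d)) := by
    rw [Finset.disjoint_left]
    intro x hx hx'
    rw [mem_image] at hx'
    obtain ⟨d, hd1, rfl⟩ := hx'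
    have h1 := (hs2 _ hx).2
    have h2 := Nat.div_mul_cancel (hdM d hd1)
    have h3 : d ≤ ∑ d ∈ 𝒟, d := single_le_sum (f := fun d => d) (fun _ _ => Nat.zero_le _) hd1
    have h4 : d < N * K * q := by omega
    have h5 : S * N * K * q / d * d ≤ S * d := Nat.mul_le_mul_right _ h1
    have h6 : S * d < S * (N * K * q) := Nat.mul_lt_mul_of_pos_left h4 hS
    have h7 : S * (N * K * q) = S * N * K * q := by ring
    omega
  refine ⟨by positivity, s ∪ 𝒟.image (fun d => S * N * K * q / d), ?_, ?_, ?_⟩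
  · rw [card_union_of_disjoint hdisj, card_image_of_injOn hinj, hs1]
  · intro x hx
    rcases mem_union.mp hx with hx | hx
    · exact (hs2 x hx).1
    · rw [mem_image] at hx
      obtain ⟨d, hd1, rfl⟩ := hx
      exact Nat.div_pos (Nat.le_of_dvd hM (hdM d hd1)) (hd0 d hd1)
  · unfold fs
    rw [sum_union hdisj, sum_image hinj]
    have h1 : ∑ d ∈ 𝒟, (1 : ℚ) / ((S * N * K * q / d : ℕ) : ℚ) =
        (∑ d ∈ 𝒟, (d : ℚ)) / ((S : ℚ) * N * K * q) := by
      rw [sum_div]
      refine sum_congr rfl fun d hd1 => ?_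
      have h3 : (d : ℚ) ≠ 0 := by have := hd0 d hd1; positivity
      rw [Nat.cast_div (hdM d hd1) h3]
      push_cast
      have h4 : (S : ℚ) ≠ 0 := by positivity
      have h5 : (N : ℚ) ≠ 0 := by positivity
      have h6 : (K : ℚ) ≠ 0 := by positivity
      have h7 : (q : ℚ) ≠ 0 := by positivity
      field_simp
    rw [h1]
    refine Eq.trans ?_ hs3
    have h8 : (∑ d ∈ 𝒟, (d : ℚ)) = (N : ℚ) * K * q - q := by
      have : ((∑ d ∈ 𝒟, d + q : ℕ) : ℚ) = ((N * K * q : ℕ) : ℚ) := by exact_mod_cast hsum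
      push_cast at this
      linarith
    rw [h8]
    have h4 : (S : ℚ) ≠ 0 := by positivity
    have h5 : (N : ℚ) ≠ 0 := by positivity
    have h6 : (K : ℚ) ≠ 0 := by positivity
    have h7 : (q : ℚ) ≠ 0 := by positivity
    have key : ((N : ℚ) * K * q - q) / ((S : ℚ) * N * K * q) + 1 / ((S : ℚ) * N * K) = 1 / S := by
      field_simp
      ring
    unfold fs
    push_cast
    linarith

/-- the last term splits in at least `τ(D) - 1 - 2 t` ways into distinct new terms -/
lemma dlb_of_dreach {t D K : ℕ} (h : DReach t D) (hK : K + 1 + 2 * t ≤ D.divisors.card) :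
    DLB (t + 2) K := by
  classical
  obtain ⟨hD, s, hs1, hs2, hs3⟩ := h
  -- the admissible divisors
  set U : Finset ℕ := D.divisors.filter
    (fun u => u ≠ D ∧ D + u ∉ s ∧ D + D * (D / u) ∉ s) with hU
  have hUcard : K ≤ U.card := by
    set B1 : Finset ℕ := D.divisors.filter (fun u => D + u ∈ s) with hB1
    set B2 : Finset ℕ := D.divisors.filter (fun u => D + D * (D / u) ∈ s) with hB2
    have h1 : D.divisors ⊆ ((U ∪ {D}) ∪ B1) ∪ B2 := by
      intro u hu
      rw [mem_union, mem_union, mem_union, hU, hB1, hB2, mem_filter, mem_filter, mem_filter,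
        mem_singleton]
      by_cases c1 : u = D
      · exact Or.inl (Or.inl (Or.inr c1))
      · by_cases c2 : D + u ∈ s
        · exact Or.inl (Or.inr ⟨hu, c2⟩)
        · by_cases c3 : D + D * (D / u) ∈ s
          · exact Or.inr ⟨hu, c3⟩
          · exact Or.inl (Or.inl (Or.inl ⟨hu, c1, c2, c3⟩))
    have h2 : B1.card ≤ t := by
      rw [← hs1]
      refine card_le_card_of_injOn (fun u => D + u) ?_ ?_
      · intro u hu
        rw [hB1, mem_coe, mem_filter] at hu
        exact hu.2
      · intro u _ u' _ huu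
        simpa using huu
    have h3 : B2.card ≤ t := by
      rw [← hs1]
      refine card_le_card_of_injOn (fun u => D + D * (D / u)) ?_ ?_
      · intro u hu
        rw [hB2, mem_coe, mem_filter] at hu
        exact hu.2
      · intro u hu u' hu' huu
        rw [hB2, mem_coe, mem_filter, Nat.mem_divisors] at hu hu'
        simp only at huu
        have h4 : D / u = D / u' := by
          have := Nat.add_left_cancel huu
          exact Nat.eq_of_mul_eq_mul_left hD this
        have h5 := Nat.div_mul_cancel hu.1.1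
        have h6 := Nat.div_mul_cancel hu'.1.1
        rw [h4] at h5
        have h7 : 0 < D / u' := Nat.div_pos (Nat.le_of_dvd hD hu'.1.1)
          (Nat.pos_of_dvd_of_pos hu'.1.1 hD)
        exact Nat.eq_of_mul_eq_mul_left h7 (h5.trans h6.symm)
    have h4 := card_le_card h1
    have h5 := card_union_le ((U ∪ {D}) ∪ B1) B2
    have h6 := card_union_le (U ∪ {D}) B1
    have h7 := card_union_le U {D}
    rw [card_singleton] at h7
    omega
  let f : ℕ → Finset ℕ := fun u => s ∪ {D + u, D + D * (D / u)}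
  have hprop : ∀ u ∈ U, u ∣ D ∧ 0 < u ∧ u < D ∧ D + u ∉ s ∧ D + D * (D / u) ∉ s ∧
      D + u < D + D * (D / u) := by
    intro u hu
    rw [hU, mem_filter, Nat.mem_divisors] at hu
    obtain ⟨⟨h1, _⟩, h2, h3, h4⟩ := hu
    have h5 : 0 < u := Nat.pos_of_dvd_of_pos h1 hD
    have h6 : u < D := lt_of_le_of_ne (Nat.le_of_dvd hD h1) h2
    refine ⟨h1, h5, h6, h3, h4, ?_⟩
    have h7 : 1 ≤ D / u := Nat.div_pos h6.le h5
    have h8 : D ≤ D * (D / u) := Nat.le_mul_of_pos_right _ h7
    omega
  have hdisj : ∀ u ∈ U, Disjoint s {D + u, D + D * (D / u)} := by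
    intro u hu
    obtain ⟨_, _, _, h3, h4, _⟩ := hprop u hu
    rw [Finset.disjoint_right]
    intro x hx
    rw [mem_insert, mem_singleton] at hx
    rcases hx with rfl | rfl
    · exact h3
    · exact h4
  refine ⟨U.image f, ?_, ?_⟩
  · intro m hm
    rw [mem_image] at hm
    obtain ⟨u, hu, rfl⟩ := hm
    obtain ⟨h1, h2, h3, _, _, h6⟩ := hprop u hu
    refine ⟨?_, ?_, ?_⟩
    · simp only [f]
      rw [card_union_of_disjoint (hdisj u hu), card_pair h6.ne, hs1]
    · intro x hx
      simp only [f, mem_union, mem_insert, mem_singleton] at hx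
      rcases hx with hx | rfl | rfl
      · exact hs2 x hx
      · positivity
      · positivity
    · simp only [f]
      unfold fs at hs3 ⊢
      rw [sum_union (hdisj u hu), sum_pair h6.ne]
      refine Eq.trans ?_ hs3
      obtain ⟨c, hc⟩ := h1
      have hc0 : 0 < c := Nat.pos_of_ne_zero fun h => by subst h; simp at hc; omega
      have hdiv : D / u = c := by rw [hc]; exact Nat.mul_div_cancel_left c h2
      rw [hdiv, hc]
      have h1 : (u : ℚ) ≠ 0 := by positivity
      have h2 : (c : ℚ) ≠ 0 := by positivity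
      have h3 : (c : ℚ) + 1 ≠ 0 := by positivity
      push_cast
      have h4 : (u : ℚ) * c + u = u * (c + 1) := by ring
      have h5 : (u : ℚ) * c + u * c * c = u * c * (c + 1) := by ring
      rw [h4, h5]
      have key : (1 : ℚ) / ((u : ℚ) * (c + 1)) + 1 / ((u : ℚ) * c * (c + 1)) = 1 / ((u : ℚ) * c) := by
        field_simp
      linarith
  · rw [card_image_of_injOn]
    · exact hUcard
    intro u hu u' hu' huu
    have hu1 := hprop u hu
    have hu'1 := hprop u' hu'
    simp only [f] at huu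
    have hmem : D + u ∈ s ∪ {D + u', D + D * (D / u')} := by
      rw [← huu]; simp
    rw [mem_union, mem_insert, mem_singleton] at hmem
    rcases hmem with h2 | h2 | h2
    · exact absurd h2 hu1.2.2.2.1
    · omega
    · exfalso
      have h4 : 1 ≤ D / u' := Nat.div_pos hu'1.2.2.1.le hu'1.2.1
      have h6 : D ≤ D * (D / u') := Nat.le_mul_of_pos_right _ h4
      have := hu1.2.2.1
      omega

lemma DLB.succ {t K : ℕ} (ht : 2 ≤ t) (h : DLB t K) : DLB (t + 1) K := by
  classical
  obtain ⟨F, hF, hK⟩ := h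
  let f : Finset ℕ → Finset ℕ := fun A => insert 2 (A.image (fun x => 2 * x))
  have h1 : ∀ A ∈ F, 1 ∉ A := by
    intro A hA h1A
    obtain ⟨h2, h3, h4⟩ := hF A hA
    have h5 : 1 < A.card := by omega
    obtain ⟨b, hb, hb1⟩ := exists_mem_ne h5 1
    unfold fs at h4
    have h6 : ∑ x ∈ ({1, b} : Finset ℕ), (1 : ℚ) / (x : ℚ) ≤ ∑ x ∈ A, (1 : ℚ) / (x : ℚ) := by
      refine sum_le_sum_of_subset_of_nonneg ?_ ?_
      · intro x hx
        rw [mem_insert, mem_singleton] at hx
        rcases hx with rfl | rfl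
        · exact h1A
        · exact hb
      · intro x _ _
        positivity
    rw [sum_pair hb1.symm, h4] at h6
    have h7 : (0 : ℚ) < b := by exact_mod_cast h3 b hb
    have h8 : (0 : ℚ) < 1 / b := by positivity
    push_cast at h6
    linarith
  have h2mem : ∀ A ∈ F, 2 ∉ A.image (fun x => 2 * x) := by
    intro A hA h
    rw [mem_image] at h
    obtain ⟨x, hx, hx2⟩ := h
    have : x = 1 := by omega
    subst this
    exact h1 A hA hx
  have hinj2 : Function.Injective (fun x : ℕ => 2 * x) := fun a b hab => by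
    simp only at hab
    omega
  have hinj : Set.InjOn f (F : Set (Finset ℕ)) := by
    intro A hA B hB hAB
    simp only [f] at hAB
    have h3 : A.image (fun x => 2 * x) = B.image (fun x => 2 * x) := by
      have h4 := congrArg (fun C => Finset.erase C 2) hAB
      rwa [erase_insert (h2mem A hA), erase_insert (h2mem B hB)] at h4
    exact image_injective hinj2 h3
  refine ⟨F.image f, ?_, ?_⟩
  · intro m hm
    rw [mem_image] at hm
    obtain ⟨A, hA, rfl⟩ := hm
    obtain ⟨h3, h4, h5⟩ := hF A hA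
    refine ⟨?_, ?_, ?_⟩
    · simp only [f]
      rw [card_insert_of_notMem (h2mem A hA), card_image_of_injective _ hinj2, h3]
    · intro x hx
      simp only [f, mem_insert, mem_image] at hx
      rcases hx with rfl | ⟨y, hy, rfl⟩
      · norm_num
      · have := h4 y hy
        positivity
    · simp only [f]
      unfold fs at h5 ⊢
      rw [sum_insert (h2mem A hA), sum_image (fun a _ b _ hab => hinj2 hab)]
      have h6 : ∑ x ∈ A, (1 : ℚ) / ((2 * x : ℕ) : ℚ) = (1 / 2) * ∑ x ∈ A, (1 : ℚ) / (x : ℚ) := by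
        rw [mul_sum]
        refine sum_congr rfl fun x _ => ?_
        push_cast
        rw [one_div_mul_one_div]
      rw [h6, h5]
      norm_num
  · rw [card_image_of_injOn hinj]
    exact hK

lemma DLB.mono {t t' K : ℕ} (ht : 2 ≤ t) (h : DLB t K) (htt : t ≤ t') : DLB t' K := by
  induction t', htt using Nat.le_induction with
  | base => exact h
  | succ n hn ih => exact ih.succ (ht.trans hn)

lemma DLB.weaken {t K K' : ℕ} (h : DLB t K) (hK : K' ≤ K) : DLB t K' := by
  obtain ⟨F, hF, h1⟩ := h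
  exact ⟨F, hF, hK.trans h1⟩

end Pool.Agent.Lib_helper83.EF
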