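import Mathlib

/-!
# Collisions of sums with base `m` digits
-/

set_option autoImplicit false

namespace Pool.Agent.Lib_helper83.EF

open Finset

/-- A shift does not increase the number of coincidences. -/
lemma card_shift_le {A G : Type} [Fintype A] [DecidableEq A] [Fintype G] [DecidableEq G]
    [AddCommGroup G] (X : A → G) (c : G) :
    ((univ : Finset (A × A)).filter (fun q => X q.1 + c = X q.2)).card ≤
      ((univ : Finset (A × A)).filter (fun q => X q.1 = X q.2)).card := by
  classical
  let ρ : G → ℕ := fun z => ((univ : Finset A).filter (fun a => X a = z)).card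
  have hcount : ∀ c : G, ((univ : Finset (A × A)).filter (fun q => X q.1 + c = X q.2)).card =
      ∑ z : G, ρ z * ρ (z + c) := by
    intro c
    rw [card_eq_sum_card_fiberwise (f := fun q : A × A => X q.1) (t := (univ : Finset G))
      (fun _ _ => mem_coe.mpr (mem_univ _))]
    refine sum_congr rfl fun z _ => ?_
    simp only [ρ]
    rw [← card_product]
    congr 1
    ext q
    simp only [mem_filter, mem_univ, true_and, mem_product]
    constructor
    · rintro ⟨h1, h2⟩
      exact ⟨h2, by rw [← h1, h2]⟩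
    · rintro ⟨h1, h2⟩
      exact ⟨by rw [h1, h2], h1⟩
  have h0 : ((univ : Finset (A × A)).filter (fun q => X q.1 = X q.2)).card =
      ∑ z : G, ρ z * ρ z := by
    have := hcount 0
    simpa using this
  rw [hcount, h0]
  have h1 : ∑ z : G, ρ (z + c) * ρ (z + c) = ∑ z : G, ρ z * ρ z :=
    Equiv.sum_comp (Equiv.addRight c) (fun z => ρ z * ρ z)
  have h2 : 2 * ∑ z : G, ρ z * ρ (z + c) ≤ ∑ z : G, ρ z * ρ z + ∑ z : G, ρ (z + c) * ρ (z + c) := by
    rw [mul_sum, ← sum_add_distrib]
    refine sum_le_sum fun z _ => ?_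
    zify
    nlinarith [sq_nonneg ((ρ z : ℤ) - ρ (z + c))]
  rw [h1] at h2
  linarith

/-- sum with base `m` digits -/
def TT {A : Type} (x : A → ℕ) (m : ℕ) {k : ℕ} (σ : Fin k → A) : ℕ :=
  ∑ i : Fin k, m ^ (i : ℕ) * x (σ i)

lemma TT_succ {A : Type} (x : A → ℕ) (m : ℕ) {k : ℕ} (σ : Fin (k + 1) → A) :
    TT x m σ = x (σ 0) + m * TT x m (fun i => σ i.succ) := by
  unfold TT
  rw [Fin.sum_univ_succ, mul_sum]
  simp only [Fin.val_zero, pow_zero, one_mul, Fin.val_succ]
  congr 1
  refine sum_congr rfl fun i _ => ?_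
  ring

/-- number of coincidences modulo `m` -/
def EE {A : Type} [Fintype A] [DecidableEq A] (x : A → ℕ) (m : ℕ) : ℕ :=
  ((univ : Finset (A × A)).filter (fun q => x q.1 ≡ x q.2 [MOD m])).card

lemma card_shift_mod_le {A : Type} [Fintype A] [DecidableEq A] (x : A → ℕ) (m : ℕ) (hm : 0 < m)
    (c : ℤ) :
    ((univ : Finset (A × A)).filter
      (fun q => ((x q.1 : ℤ) + c ≡ (x q.2 : ℤ) [ZMOD (m : ℤ)]))).card ≤ EE x m := by
  classical
  have : NeZero m := ⟨hm.ne'⟩
  have h := card_shift_le (fun a => ((x a : ℕ) : ZMod m)) ((c : ℤ) : ZMod m)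
  unfold EE
  refine le_trans (le_of_eq ?_) (h.trans (le_of_eq ?_))
  · congr 1
    refine filter_congr fun q _ => ?_
    rw [← ZMod.intCast_eq_intCast_iff]
    push_cast
    exact Iff.rfl
  · congr 1
    refine filter_congr fun q _ => ?_
    exact ZMod.natCast_eq_natCast_iff _ _ _

theorem coll_mod_le {A : Type} [Fintype A] [DecidableEq A] (x : A → ℕ) (m : ℕ) (hm : 0 < m)
    (k : ℕ) : ∀ c : ℤ,
    ((univ : Finset ((Fin k → A) × (Fin k → A))).filter
      (fun q => ((TT x m q.1 : ℤ) + c ≡ (TT x m q.2 : ℤ) [ZMOD ((m : ℤ) ^ k)]))).card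
      ≤ EE x m ^ k := by
  classical
  induction k with
  | zero =>
    intro c
    refine (card_filter_le _ _).trans ?_
    simp
  | succ k ih =>
    intro c
    set S := (univ : Finset ((Fin (k + 1) → A) × (Fin (k + 1) → A))).filter
      (fun q => ((TT x m q.1 : ℤ) + c ≡ (TT x m q.2 : ℤ) [ZMOD ((m : ℤ) ^ (k + 1))])) with hS
    set B := (univ : Finset (A × A)).filter
      (fun q => ((x q.1 : ℤ) + c ≡ (x q.2 : ℤ) [ZMOD (m : ℤ)])) with hB
    have hmz : (m : ℤ) ≠ 0 := by exact_mod_cast hm.ne'
    have hmap : ∀ q ∈ S, ((q.1 0, q.2 0) : A × A) ∈ B := by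
      intro q hq
      rw [hS, mem_filter] at hq
      rw [hB, mem_filter]
      refine ⟨mem_univ _, ?_⟩
      have h1 := hq.2
      rw [TT_succ, TT_succ] at h1
      have h2 := h1.of_dvd (m := (m : ℤ)) (dvd_pow_self _ (Nat.succ_ne_zero k))
      rw [Int.modEq_iff_dvd] at h2 ⊢
      push_cast at h2
      have h3 : (m : ℤ) ∣ (x (q.2 0) : ℤ) - (x (q.1 0) + c) := by
        have h4 : (x (q.2 0) : ℤ) - (x (q.1 0) + c) =
            ((x (q.2 0) : ℤ) + m * TT x m (fun i => q.2 i.succ) -
              (x (q.1 0) + m * TT x m (fun i => q.1 i.succ) + c)) +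
              m * ((TT x m (fun i => q.1 i.succ) : ℤ) - TT x m (fun i => q.2 i.succ)) := by ring
        rw [h4]
        exact dvd_add h2 (dvd_mul_right _ _)
      exact h3
    rw [card_eq_sum_card_fiberwise (f := fun q : (Fin (k + 1) → A) × (Fin (k + 1) → A) =>
      ((q.1 0, q.2 0) : A × A)) (t := B) (fun q hq => mem_coe.mpr (hmap q hq))]
    calc ∑ b ∈ B, (S.filter (fun q => ((q.1 0, q.2 0) : A × A) = b)).card
        ≤ ∑ _b ∈ B, EE x m ^ k := by
          refine sum_le_sum fun b hb => ?_
          rw [hB, mem_filter] at hb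
          obtain ⟨c', hc'⟩ := (Int.modEq_iff_dvd.mp hb.2)
          refine le_trans (card_le_card_of_injOn
            (fun q : (Fin (k + 1) → A) × (Fin (k + 1) → A) =>
              (((fun i => q.1 i.succ), (fun i => q.2 i.succ)) : (Fin k → A) × (Fin k → A)))
            ?_ ?_) (ih (-c'))
          · intro q hq
            rw [mem_coe, mem_filter, hS, mem_filter] at hq
            rw [mem_coe, mem_filter]
            refine ⟨mem_univ _, ?_⟩
            obtain ⟨⟨_, h1⟩, h2⟩ := hq
            rw [← h2] at hc'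
            simp only at hc'
            rw [TT_succ, TT_succ, Int.modEq_iff_dvd] at h1
            rw [Int.modEq_iff_dvd]
            push_cast at h1
            have h5 : (x (q.2 0) : ℤ) + m * TT x m (fun i => q.2 i.succ) -
              (x (q.1 0) + m * TT x m (fun i => q.1 i.succ) + c) =
              m * ((TT x m (fun i => q.2 i.succ) : ℤ) -
                (TT x m (fun i => q.1 i.succ) + -c')) := by
              linear_combination hc'
            rw [h5, pow_succ, mul_comm ((m : ℤ) ^ k)] at h1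
            exact Int.dvd_of_mul_dvd_mul_left hmz h1
          · intro q hq q' hq' h
            rw [mem_coe, mem_filter] at hq hq'
            have h1 := hq.2.trans hq'.2.symm
            simp only [Prod.mk.injEq] at h h1
            refine Prod.ext ?_ ?_
            · funext i
              refine Fin.cases ?_ (fun j => ?_) i
              · exact h1.1
              · exact congrFun h.1 j
            · funext i
              refine Fin.cases ?_ (fun j => ?_) i
              · exact h1.2
              · exact congrFun h.2 j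
      _ = B.card * EE x m ^ k := by rw [sum_const, smul_eq_mul]
      _ ≤ EE x m * EE x m ^ k := Nat.mul_le_mul_right _ (card_shift_mod_le x m hm c)
      _ = EE x m ^ (k + 1) := by rw [pow_succ, mul_comm]

theorem coll_le {A : Type} [Fintype A] [DecidableEq A] (x : A → ℕ) (m : ℕ) (hm : 0 < m)
    (k : ℕ) :
    ((univ : Finset ((Fin k → A) × (Fin k → A))).filter
      (fun q => TT x m q.1 = TT x m q.2)).card ≤ EE x m ^ k := by
  classical
  refine le_trans (card_le_card ?_) (coll_mod_le x m hm k 0)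
  intro q hq
  rw [mem_filter] at hq ⊢
  refine ⟨mem_univ _, ?_⟩
  rw [hq.2, add_zero]

lemma TT_add_le {A : Type} (x : A → ℕ) (m b : ℕ) (hm : 2 ≤ m) (hx : ∀ a, x a ≤ b) (k : ℕ) :
    ∀ σ : Fin k → A, TT x m σ + b ≤ m ^ k * b := by
  induction k with
  | zero => intro σ; simp [TT]
  | succ k ih =>
    intro σ
    rw [TT_succ]
    have h1 := ih (fun i => σ i.succ)
    have h2 := hx (σ 0)
    have h3 : m * (TT x m (fun i => σ i.succ) + b) ≤ m * (m ^ k * b) := Nat.mul_le_mul_left _ h1
    have h4 : m ^ (k + 1) * b = m * (m ^ k * b) := by ring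
    rw [h4]
    have h5 : 2 * b ≤ m * b := Nat.mul_le_mul_right _ hm
    rw [mul_add] at h3
    omega

lemma TT_lt {A : Type} (x : A → ℕ) (m b : ℕ) (hm : 2 ≤ m) (hb : 0 < b) (hx : ∀ a, x a ≤ b)
    (k : ℕ) (σ : Fin k → A) : TT x m σ < m ^ k * b := by
  have := TT_add_le x m b hm hx k σ
  omega

lemma TT_pos {A : Type} (x : A → ℕ) (m : ℕ) (hm : 0 < m) (hx : ∀ a, 0 < x a) {k : ℕ}
    (hk : 0 < k) (σ : Fin k → A) : 0 < TT x m σ := by
  unfold TT
  refine sum_pos (fun i _ => Nat.mul_pos (pow_pos hm _) (hx _)) ⟨⟨0, hk⟩, mem_univ _⟩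

end Pool.Agent.Lib_helper83.EF
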