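import Mathlib
import Pool.Agent.Lib_helper83.EF.DParams

/-!
# From finite sets to increasing tuples, and the analytic form of the bound
-/

set_option autoImplicit false

namespace Pool.Agent.Lib_helper83.EF

open Finset

/-- strictly increasing solutions -/
def IncSol (t : ℕ) : Set (Fin t → ℕ) :=
  {x | StrictMono x ∧ (∀ i, 0 < x i) ∧ ∑ i, (1 : ℚ) / (x i : ℚ) = 1}

lemma incSol_subset (t : ℕ) : IncSol t ⊆ OSol t := fun _ hx => ⟨hx.2.1, hx.2.2⟩

/-- the increasing tuple of a finite set -/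
noncomputable def itup (t : ℕ) (A : Finset ℕ) : Fin t → ℕ :=
  if h : A.card = t then A.orderEmbOfFin h else fun _ => 0

lemma dlb_le_ncard {t K : ℕ} (hfin : (IncSol t).Finite) (h : DLB t K) : K ≤ (IncSol t).ncard := by
  classical
  obtain ⟨F, hF, hK⟩ := h
  have himg : ∀ A ∈ F, univ.image (itup t A) = A := by
    intro A hA
    have h1 := (hF A hA).1
    rw [itup, dif_pos h1]
    exact image_orderEmbOfFin_univ A h1
  have hsub : ((F.image (itup t) : Finset (Fin t → ℕ)) : Set (Fin t → ℕ)) ⊆ IncSol t := by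
    intro x hx
    rw [mem_coe, mem_image] at hx
    obtain ⟨A, hA, rfl⟩ := hx
    obtain ⟨h1, h2, h3⟩ := hF A hA
    have h4 := himg A hA
    have hmono : StrictMono (itup t A) := by
      rw [itup, dif_pos h1]
      exact (A.orderEmbOfFin h1).strictMono
    refine ⟨hmono, ?_, ?_⟩
    · intro i
      apply h2
      have h5 := mem_image_of_mem (itup t A) (mem_univ i)
      rwa [h4] at h5
    · unfold fs at h3
      refine Eq.trans ?_ h3
      conv_rhs => rw [← h4]
      rw [sum_image (fun a _ b _ hab => hmono.injective hab)]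
  have hinj : Set.InjOn (itup t) (F : Set (Finset ℕ)) := by
    intro A hA B hB hAB
    rw [← himg A hA, ← himg B hB, hAB]
  calc K ≤ F.card := hK
    _ = (F.image (itup t)).card := (card_image_of_injOn hinj).symm
    _ = ((F.image (itup t) : Finset (Fin t → ℕ)) : Set (Fin t → ℕ)).ncard :=
        (Set.ncard_coe_finset _).symm
    _ ≤ (IncSol t).ncard := Set.ncard_le_ncard hsub hfin

/-- the analytic form of the lower bound -/
theorem inc_lower (hLS : LSStatement) (hfin : ∀ t, (IncSol t).Finite) :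
    ∃ t₀ : ℕ, ∀ t ≥ t₀, Real.exp (Real.exp ((t : ℝ) / 400)) ≤ ((IncSol t).ncard : ℝ) := by
  refine ⟨30000, fun t ht => ?_⟩
  set l : ℕ := t / 263 with hl
  have hl1 : 263 * l ≤ t := Nat.mul_div_le t 263
  have hl2 : t < 263 * l + 263 := Nat.lt_mul_div_succ t (by norm_num)
  have hl3 : 20 ≤ l := by omega
  have hLB := (main_dlb hLS hl3).mono (by omega) hl1
  have h1 := dlb_le_ncard (hfin t) hLB
  have h2 : ((2 ^ 2 ^ (l - 2) : ℕ) : ℝ) ≤ ((IncSol t).ncard : ℝ) := by exact_mod_cast h1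
  refine le_trans ?_ h2
  have hlog := Real.log_two_gt_d9
  obtain ⟨m, hm⟩ : ∃ m, l = m + 2 := ⟨l - 2, by omega⟩
  have hm' : l - 2 = m := by omega
  rw [hm']
  rw [hm] at hl2
  have h3 : ((2 ^ 2 ^ m : ℕ) : ℝ) = Real.exp (((2 : ℝ) ^ m) * Real.log 2) := by
    rw [show ((2 : ℝ) ^ m) = ((2 ^ m : ℕ) : ℝ) by push_cast; rfl, Real.exp_nat_mul,
      Real.exp_log (by norm_num)]
    push_cast; rfl
  rw [h3]
  apply Real.exp_le_exp.2
  have h4 : (2 : ℝ) ^ m = Real.exp ((m : ℝ) * Real.log 2) := by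
    rw [Real.exp_nat_mul, Real.exp_log (by norm_num)]
  have h5 : Real.exp (-1 : ℝ) ≤ Real.log 2 := by
    have := Real.exp_neg_one_lt_d9
    linarith
  have h6 : Real.exp ((t : ℝ) / 400) ≤ Real.exp ((m : ℝ) * Real.log 2) * Real.exp (-1) := by
    rw [← Real.exp_add]
    apply Real.exp_le_exp.2
    have h7 : (t : ℝ) < 263 * ((m : ℝ) + 2) + 263 := by exact_mod_cast hl2
    have h8 : (30000 : ℝ) ≤ t := by exact_mod_cast ht
    have h9 : (m : ℝ) * 0.693 ≤ (m : ℝ) * Real.log 2 := by
      have : (0 : ℝ) ≤ m := Nat.cast_nonneg m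
      nlinarith
    linarith
  refine h6.trans ?_
  rw [h4]
  exact mul_le_mul_of_nonneg_left h5 (Real.exp_pos _).le

end Pool.Agent.Lib_helper83.EF
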