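import Mathlib
import Pool.Agent.Lib_helper83.EF.Interface
import Pool.Agent.Lib_helper83.EF.Coll
import Pool.Agent.Lib_helper83.EF.Digits
import Pool.Agent.Lib_helper83.EF.Compare
import Pool.Agent.Lib_helper83.EF.Chain

/-!
# The engine
-/

set_option autoImplicit false

namespace Pool.Agent.Lib_helper83.EF

open Finset

/-- Cauchy-Schwarz: the number of values times the number of coincidences. -/
lemma card_sq_le {A : Type} [Fintype A] [DecidableEq A] (x : A → ℕ) :
    Fintype.card A ^ 2 ≤ ((univ : Finset A).image x).card *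
      ((univ : Finset (A × A)).filter (fun q => x q.1 = x q.2)).card := by
  classical
  set I := (univ : Finset A).image x with hI
  set ρ : ℕ → ℕ := fun n => ((univ : Finset A).filter (fun a => x a = n)).card with hρ
  have h1 : Fintype.card A = ∑ n ∈ I, ρ n := by
    rw [← card_univ]
    exact card_eq_sum_card_fiberwise (fun a _ => mem_coe.mpr (mem_image_of_mem x (mem_univ a)))
  have h2 : ((univ : Finset (A × A)).filter (fun q => x q.1 = x q.2)).card =
      ∑ n ∈ I, ρ n ^ 2 := by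
    rw [card_eq_sum_card_fiberwise (f := fun q : A × A => x q.1) (t := I)
      (fun q _ => mem_coe.mpr (mem_image_of_mem x (mem_univ q.1)))]
    refine sum_congr rfl fun n _ => ?_
    rw [hρ, pow_two]
    simp only
    rw [← card_product]
    congr 1
    ext q
    simp only [mem_filter, mem_univ, true_and, mem_product]
    constructor
    · rintro ⟨h1, h2⟩
      exact ⟨h2, by rw [← h1, h2]⟩
    · rintro ⟨h1, h2⟩
      exact ⟨by rw [h1, h2], h1⟩
  rw [h1, h2]
  exact sq_sum_le_card_mul_sum_sq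

/-- The engine: all numerical conditions are hypotheses. -/
theorem engine (hLS : LSStatement) {w r a k j G K' B Pc : ℕ} (hw : 0 < w) (ha : 0 < a)
    (hr0 : 0 < r) (hr : r ≤ w) (hk : 0 < k) (hj : a * r * k ≤ 2 ^ j)
    (Q : Finset ℕ) (hQ0 : Q.Nonempty) (hQ : ∀ p ∈ Q, p.Prime ∧ Odd p ∧ p < 2 ^ a)
    (hB : 4 ^ w * r.factorial + 2 ^ w * (w + 1) ^ (2 * r) * Q.card ^ r ≤ B * Q.card ^ r)
    (hG : G ^ 2 ≤ (2 ^ (a * r)) ^ k * 2 ^ (a * w))
    (hPc : Pc + w ≤ ((range (G + 1)).filter Nat.Prime).card)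
    (hbig : (2 ^ (a * w) + 1) * (6 * ((2 ^ (a * r)) ^ k * 2 ^ (a * w)) * B ^ k) <
      Pc * ((2 ^ w) ^ k) ^ 2)
    (hK : K' * B ≤ 4 ^ w) (hB0 : 0 < B) : LB (2 * j + 2 * k + 3) K' := by
  classical
  obtain ⟨p, hpQ, hpE⟩ := exists_E1_le (w := w) (r := r) (a := a) hr Q hQ0 hQ
  have hQc : 0 < Q.card := card_pos.mpr hQ0
  have hE1 : E1 p (2 ^ (a * r)) ≤ B := by
    have h1 := hpE.trans hB
    exact Nat.le_of_mul_le_mul_right h1 (by positivity)
  set x : Finset (Fin w) → ℕ := al p with hx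
  set m : ℕ := 2 ^ (a * r) with hm
  have hm2 : 2 ≤ m := by
    rw [hm]
    calc 2 = 2 ^ 1 := rfl
      _ ≤ 2 ^ (a * r) := Nat.pow_le_pow_right (by norm_num) (Nat.mul_pos ha hr0)
  have hEE : EE x m ≤ B := hE1
  have hpp : ∀ i, (p i).Prime := fun i => (hQ _ (hpQ i)).1
  set N : ℕ := al p univ with hN
  have hxpos : ∀ S, 0 < x S := fun S => prod_pos fun i _ => (hpp i).pos
  have hxN : ∀ S, x S ∣ N := fun S => prod_dvd_prod_of_subset _ _ _ (subset_univ S)
  have hNpos : 0 < N := hxpos univ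
  have hNle : N ≤ 2 ^ (a * w) := by
    rw [hN]
    unfold al
    calc ∏ i, p i ≤ ∏ _i : Fin w, 2 ^ a := prod_le_prod' fun i _ => (hQ _ (hpQ i)).2.2.le
      _ = 2 ^ (a * w) := by rw [prod_const, card_univ, Fintype.card_fin, ← pow_mul]
  have hN2 : 2 ≤ N := by
    have h1 : p ⟨0, hw⟩ ∣ N := dvd_prod_of_mem p (mem_univ _)
    exact (hpp _).two_le.trans (Nat.le_of_dvd hNpos h1)
  have hxle : ∀ S, x S ≤ 2 ^ (a * w) := fun S => (Nat.le_of_dvd hNpos (hxN S)).trans hNle
  set T : (Fin k → Finset (Fin w)) → ℕ := fun σ => TT x m σ with hT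
  set L : ℕ := m ^ k * 2 ^ (a * w) with hL
  have hTL : ∀ σ, T σ < L := fun σ => TT_lt x m _ hm2 (by positivity) hxle k σ
  have hTpos : ∀ σ, 0 < T σ := fun σ => TT_pos x m (by omega) hxpos hk σ
  have hcoll : ((univ : Finset ((Fin k → Finset (Fin w)) × (Fin k → Finset (Fin w)))).filter
      (fun q => T q.1 = T q.2)).card ≤ B ^ k :=
    (coll_le x m (by omega) k).trans (Nat.pow_le_pow_left hEE k)
  have hcard : Fintype.card (Fin k → Finset (Fin w)) = (2 ^ w) ^ k := by
    rw [Fintype.card_fun, Fintype.card_finset, Fintype.card_fin, Fintype.card_fin]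
  -- the set of primes
  set P := (range (G + 1)).filter (fun l => l.Prime ∧ ¬ l ∣ N) with hP
  have hPcard : Pc ≤ P.card := by
    have h1 : (range (G + 1)).filter Nat.Prime ⊆ P ∪ univ.image p := by
      intro l hl
      rw [mem_filter] at hl
      rw [mem_union, hP, mem_filter, mem_image]
      by_cases hd : l ∣ N
      · right
        rw [hN] at hd
        unfold al at hd
        rw [Prime.dvd_finsetProd_iff hl.2.prime] at hd
        obtain ⟨i, hi, hd⟩ := hd
        exact ⟨i, hi, ((Nat.prime_dvd_prime_iff_eq hl.2 (hpp i)).mp hd).symm⟩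
      · left
        exact ⟨hl.1, hl.2, hd⟩
    have h2 := card_le_card h1
    have h3 : (P ∪ univ.image p).card ≤ P.card + w := by
      refine (card_union_le _ _).trans (Nat.add_le_add_left ?_ _)
      refine card_image_le.trans ?_
      rw [card_univ, Fintype.card_fin]
    omega
  have hPprop : ∀ l ∈ P, l.Prime ∧ l ≤ G ∧ ¬ l ∣ N := by
    intro l hl
    rw [hP, mem_filter, mem_range] at hl
    exact ⟨hl.2.1, by omega, hl.2.2⟩
  obtain ⟨g, hg1, hgG, hgN, σ, τ, q, hq⟩ := exists_dvd_sum T hLS hN2 hG hTL P hPprop (by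
    rw [hcard]
    calc (N + 1) * (6 * L * ((univ : Finset ((Fin k → Finset (Fin w)) ×
          (Fin k → Finset (Fin w)))).filter (fun q => T q.1 = T q.2)).card)
        ≤ (2 ^ (a * w) + 1) * (6 * L * B ^ k) :=
          Nat.mul_le_mul (by omega) (Nat.mul_le_mul_left _ hcoll)
      _ < Pc * ((2 ^ w) ^ k) ^ 2 := hbig
      _ ≤ P.card * ((2 ^ w) ^ k) ^ 2 := Nat.mul_le_mul_right _ hPcard)
  obtain ⟨K, hK2⟩ := hgN
  have hK0 : 0 < K := by
    rcases Nat.eq_zero_or_pos K with h | h
    · subst h; omega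
    · exact h
  have hq0 : 0 < q := by
    rcases Nat.eq_zero_or_pos q with h | h
    · subst h
      have := hTpos σ
      omega
    · exact h
  obtain ⟨E, hE, hreach⟩ := reach_pow j
  set S := 2 ^ 2 ^ j * (2 ^ 2 ^ j - 1) * E with hS
  have hreach2 := reach_main (ι := Fin k ⊕ Fin k) hreach hNpos hK0 hq0
    (Sum.elim (fun i => m ^ (i : ℕ) * x (σ i)) (fun i => m ^ (i : ℕ) * x (τ i)))
    (by
      rintro (i | i)
      · exact Nat.mul_pos (pow_pos (by omega) _) (hxpos _)
      · exact Nat.mul_pos (pow_pos (by omega) _) (hxpos _))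
    (by
      have h1 : ∀ i : Fin k, m ^ (i : ℕ) ∣ S := by
        intro i
        have h2 : m ^ (i : ℕ) ∣ 2 ^ 2 ^ j := by
          rw [hm, ← pow_mul]
          refine pow_dvd_pow 2 ?_
          calc a * r * i ≤ a * r * k := Nat.mul_le_mul_left _ i.2.le
            _ ≤ 2 ^ j := hj
        rw [hS, mul_assoc]
        exact h2.trans (dvd_mul_right _ _)
      rintro (i | i)
      · exact mul_dvd_mul (h1 i) (hxN _)
      · exact mul_dvd_mul (h1 i) (hxN _))
    (by
      rw [Fintype.sum_sum_type]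
      simp only [Sum.elim_inl, Sum.elim_inr]
      have h1 : (∑ i : Fin k, m ^ (i : ℕ) * x (σ i)) + ∑ i : Fin k, m ^ (i : ℕ) * x (τ i) =
          g * q := hq
      rw [h1]
      calc g * q + q = (g + 1) * q := by ring
        _ = N * K * q := by rw [hK2])
  have hlb := lb_of_reach hreach2
  have hcι : Fintype.card (Fin k ⊕ Fin k) = 2 * k := by
    rw [Fintype.card_sum, Fintype.card_fin]; ring
  rw [hcι] at hlb
  have ht : 1 + 2 * j + 2 * k + 2 = 2 * j + 2 * k + 3 := by ring
  rw [ht] at hlb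
  refine hlb.weaken ?_
  -- number of divisors
  have h1 : ((univ : Finset (Finset (Fin w))).image x).card ≤ (S * N * K).divisors.card := by
    refine card_le_card ?_
    intro n hn
    rw [mem_image] at hn
    obtain ⟨U, _, rfl⟩ := hn
    rw [Nat.mem_divisors]
    refine ⟨?_, ?_⟩
    · exact ((hxN U).trans (dvd_mul_left _ _)).trans (dvd_mul_right _ _)
    · have := hreach2.1
      omega
  have h2 := card_sq_le x
  have h3 : ((univ : Finset (Finset (Fin w) × Finset (Fin w))).filter
      (fun q => x q.1 = x q.2)).card ≤ B := by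
    refine le_trans (card_le_card ?_) hE1
    intro q hq
    rw [mem_filter] at hq ⊢
    refine ⟨mem_univ _, ?_⟩
    show al p q.1 ≡ al p q.2 [MOD 2 ^ (a * r)]
    rw [show al p q.1 = al p q.2 from hq.2]
  have h4 : Fintype.card (Finset (Fin w)) ^ 2 = 4 ^ w := by
    rw [Fintype.card_finset, Fintype.card_fin, ← pow_mul, mul_comm, pow_mul]
    norm_num
  rw [h4] at h2
  have h5 : K' * B ≤ ((univ : Finset (Finset (Fin w))).image x).card * B :=
    hK.trans (h2.trans (Nat.mul_le_mul_left _ h3))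
  exact (Nat.le_of_mul_le_mul_right h5 hB0).trans h1

end Pool.Agent.Lib_helper83.EF
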