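import Mathlib
import Pool.Agent.Lib_helper83.EF.Engine

/-!
# Choice of the parameters
-/

set_option autoImplicit false

namespace Pool.Agent.Lib_helper83.EF

open Finset

lemma card_primes_two_pow {m : ℕ} (hm : 1 ≤ m) :
    2 ^ m ≤ m * ((range (2 ^ m + 1)).filter Nat.Prime).card + m + 1 := by
  have h1 := Chebyshev.pi_ge (2 ^ m)
  have hπ : Nat.primeCounting (2 ^ m) = ((range (2 ^ m + 1)).filter Nat.Prime).card := by
    rw [Nat.primeCounting, Nat.primeCounting', Nat.count_eq_card_filter_range]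
  rw [hπ] at h1
  set c := ((range (2 ^ m + 1)).filter Nat.Prime).card with hc
  have hl2 : 0 < Real.log 2 := Real.log_pos (by norm_num)
  have hmR : (0 : ℝ) < m := by exact_mod_cast hm
  have h2 : Real.log ((2 ^ m : ℕ) : ℝ) = m * Real.log 2 := by
    push_cast
    rw [Real.log_pow]
  have h3 : Real.log (((2 ^ m : ℕ) : ℝ) + 1) ≤ (m + 1) * Real.log 2 := by
    have h4 : ((2 ^ m : ℕ) : ℝ) + 1 ≤ 2 ^ (m + 1) := by
      push_cast
      have : (1 : ℝ) ≤ 2 ^ m := one_le_pow₀ (by norm_num)
      rw [pow_succ]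
      linarith
    calc Real.log (((2 ^ m : ℕ) : ℝ) + 1) ≤ Real.log ((2 : ℝ) ^ (m + 1)) :=
          Real.log_le_log (by positivity) h4
      _ = (m + 1) * Real.log 2 := by rw [Real.log_pow]; push_cast; ring
  rw [h2, div_le_iff₀ (by positivity)] at h1
  have h5 : ((2 ^ m : ℕ) : ℝ) * Real.log 2 ≤ ((m * c + m + 1 : ℕ) : ℝ) * Real.log 2 := by
    push_cast at h1 h3 ⊢
    nlinarith [h1, h3]
  have h6 := le_of_mul_le_mul_right h5 hl2
  exact_mod_cast h6

/-- the pool of primes -/
def pool (l : ℕ) : Finset ℕ := (range (2 ^ (8 * l))).filter (fun p => p.Prime ∧ Odd p)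

lemma pool_prop (l : ℕ) : ∀ p ∈ pool l, p.Prime ∧ Odd p ∧ p < 2 ^ (8 * l) := by
  intro p hp
  rw [pool, mem_filter, mem_range] at hp
  exact ⟨hp.2.1, hp.2.2, hp.1⟩

lemma lin_lt_two_pow {l : ℕ} (hl : 10 ≤ l) : 64 * l < 2 ^ l := by
  induction l, hl using Nat.le_induction with
  | base => norm_num
  | succ n hn ih => rw [pow_succ]; omega

lemma pool_card {l : ℕ} (hl : 10 ≤ l) : 2 ^ (7 * l) ≤ (pool l).card := by
  have h1 := card_primes_two_pow (m := 8 * l) (by omega)
  have h2 : ((range (2 ^ (8 * l) + 1)).filter Nat.Prime).card ≤ (pool l).card + 2 := by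
    have h3 : (range (2 ^ (8 * l) + 1)).filter Nat.Prime ⊆ pool l ∪ {2, 2 ^ (8 * l)} := by
      intro p hp
      rw [mem_filter, mem_range] at hp
      rw [mem_union, pool, mem_filter, mem_range, mem_insert, mem_singleton]
      rcases hp.2.eq_two_or_odd' with h | h
      · right; left; exact h
      · by_cases h4 : p = 2 ^ (8 * l)
        · right; right; exact h4
        · left
          exact ⟨by omega, hp.2, h⟩
    refine (card_le_card h3).trans ((card_union_le _ _).trans (Nat.add_le_add_left ?_ _))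
    exact card_le_two
  have h4 : 64 * l < 2 ^ l := lin_lt_two_pow hl
  have h5 : 2 ^ (8 * l) = 2 ^ (7 * l) * 2 ^ l := by rw [← pow_add]; congr 1; ring
  by_contra hcon
  push Not at hcon
  generalize ((range (2 ^ (8 * l) + 1)).filter Nat.Prime).card = c at h1 h2
  have h6 : 8 * l * c ≤ 8 * l * (2 ^ (7 * l) + 1) := Nat.mul_le_mul_left _ (by omega)
  have h7 : 2 ^ (7 * l) * (64 * l + 1) ≤ 2 ^ (7 * l) * 2 ^ l := Nat.mul_le_mul_left _ h4
  have h8 : 1 ≤ 2 ^ (7 * l) := Nat.one_le_two_pow
  have h9 : 64 * l ≤ 64 * l * 2 ^ (7 * l) := Nat.le_mul_of_pos_right _ h8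
  rw [h5] at h1
  nlinarith [h1, h6, h7, h8, h9]

lemma primes_card_big {n : ℕ} (hn : 10 ≤ n) :
    2 ^ (35 * n) + n ≤ ((range (2 ^ (36 * n) + 1)).filter Nat.Prime).card := by
  have h1 := card_primes_two_pow (m := 36 * n) (by omega)
  have h4 : 64 * n < 2 ^ n := lin_lt_two_pow hn
  have h5 : 2 ^ (36 * n) = 2 ^ (35 * n) * 2 ^ n := by rw [← pow_add]; congr 1; ring
  by_contra hcon
  push Not at hcon
  generalize ((range (2 ^ (36 * n) + 1)).filter Nat.Prime).card = c at h1 hcon
  have h6 : 36 * n * c ≤ 36 * n * (2 ^ (35 * n) + n) := Nat.mul_le_mul_left _ hcon.le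
  have h7 : 2 ^ (35 * n) * (64 * n + 1) ≤ 2 ^ (35 * n) * 2 ^ n := Nat.mul_le_mul_left _ h4
  have h8 : n * (64 * n) ≤ n * 2 ^ n := Nat.mul_le_mul_left _ h4.le
  have h9 : 2 ^ n ≤ 2 ^ (35 * n) := Nat.pow_le_pow_right (by norm_num) (by omega)
  have h10 : n * 2 ^ n ≤ n * 2 ^ (35 * n) := Nat.mul_le_mul_left _ h9
  rw [h5] at h1
  nlinarith [h1, h6, h7, h8, h9, h10]

/-- The main estimate. -/
theorem main_lb (hLS : LSStatement) {l : ℕ} (hl : 20 ≤ l) : LB (263 * l) (2 ^ 2 ^ (l - 2)) := by
  set w : ℕ := 2 ^ l with hw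
  set r : ℕ := w / (16 * l) with hr
  set k : ℕ := 8 * w / r + 1 with hk
  have hlw : 64 * l < w := lin_lt_two_pow (by omega)
  have hlw2 : 3000 * l < w := by
    have h : ∀ n : ℕ, 20 ≤ n → 3000 * n < 2 ^ n := by
      intro n hn
      induction n, hn using Nat.le_induction with
      | base => norm_num
      | succ n hn ih => rw [pow_succ]; omega
    exact h l hl
  have hr1 : 16 * l * r ≤ w := Nat.mul_div_le w (16 * l)
  have hr2 : w < 16 * l * r + 16 * l := by
    have := Nat.lt_mul_div_succ w (show 0 < 16 * l by omega)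
    rw [← hr] at this
    linarith [this, mul_add (16 * l) r 1]
  have hr0 : 0 < r := Nat.div_pos (by omega) (by omega)
  have hrw : r ≤ w := Nat.div_le_self _ _
  have hk1 : 8 * w < r * k := by
    rw [hk]
    exact Nat.lt_mul_div_succ _ hr0
  have hk2 : r * k ≤ 8 * w + r := by
    rw [hk, mul_add, mul_one]
    exact Nat.add_le_add_right (Nat.mul_div_le _ _) _
  have hk0 : 0 < k := Nat.succ_pos _
  have hkw : k ≤ 8 * w + 1 := by
    rw [hk]
    exact Nat.add_le_add_right (Nat.div_le_self _ _) _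
  have hkl : k ≤ 129 * l := by
    have h1 : r * k ≤ r * (129 * l) := by
      nlinarith [hk2, hr2, hlw2]
    exact Nat.le_of_mul_le_mul_left h1 hr0
  have hlr : 6 * l * r ≤ w := by nlinarith
  have hlr1 : 1 ≤ 6 * l * r := by
    have : 0 < 6 * l * r := by positivity
    exact this
  have heng := engine hLS (w := w) (r := r) (a := 8 * l) (k := k) (j := 2 * l)
    (G := 2 ^ (36 * (l * w))) (K' := 2 ^ (6 * l * r - 1)) (B := 2 ^ (2 * w + 1 - 6 * l * r))
    (Pc := 2 ^ (35 * (l * w))) (by positivity) (by omega) hr0 hrw hk0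
    (by
      -- a r k ≤ 2 ^ j
      have h1 : 8 * l * r * k ≤ 72 * l * w := by nlinarith [hk2, hrw]
      have h2 : 72 * l * w ≤ w * w := by nlinarith
      have h3 : w * w = 2 ^ (2 * l) := by rw [hw, ← pow_add]; congr 1; ring
      omega)
    (pool l) (card_pos.mp (lt_of_lt_of_le (by positivity) (pool_card (by omega)))) (pool_prop l)
    (by
      have hq := pool_card (l := l) (by omega)
      have h1 : r.factorial ≤ 2 ^ (l * r) := by
        calc r.factorial ≤ r ^ r := Nat.factorial_le_pow r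
          _ ≤ (2 ^ l) ^ r := Nat.pow_le_pow_left hrw r
          _ = 2 ^ (l * r) := (pow_mul _ _ _).symm
      have h2 : 2 ^ (7 * l * r) ≤ (pool l).card ^ r := by
        calc 2 ^ (7 * l * r) = (2 ^ (7 * l)) ^ r := pow_mul _ _ _
          _ ≤ (pool l).card ^ r := Nat.pow_le_pow_left hq r
      have h3 : 4 ^ w * r.factorial ≤ 2 ^ (2 * w - 6 * l * r) * (pool l).card ^ r := by
        calc 4 ^ w * r.factorial ≤ 2 ^ (2 * w) * 2 ^ (l * r) := by
              refine Nat.mul_le_mul (le_of_eq ?_) h1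
              rw [pow_mul]; norm_num
          _ = 2 ^ (2 * w - 6 * l * r) * 2 ^ (7 * l * r) := by
              rw [← pow_add, ← pow_add]
              congr 1
              have : 7 * l * r = 6 * l * r + l * r := by ring
              omega
          _ ≤ _ := Nat.mul_le_mul_left _ h2
      have h4 : 2 ^ w * (w + 1) ^ (2 * r) ≤ 2 ^ (2 * w - 6 * l * r) := by
        calc 2 ^ w * (w + 1) ^ (2 * r) ≤ 2 ^ w * (2 ^ (2 * l)) ^ (2 * r) := by
              refine Nat.mul_le_mul_left _ (Nat.pow_le_pow_left ?_ _)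
              have h5 : 2 ^ (2 * l) = w * w := by rw [hw, ← pow_add]; congr 1; ring
              rw [h5]
              nlinarith
          _ = 2 ^ (w + 4 * l * r) := by
              rw [← pow_mul, ← pow_add]; congr 1; ring
          _ ≤ 2 ^ (2 * w - 6 * l * r) := by
              refine Nat.pow_le_pow_right (by norm_num) ?_
              have : 4 * l * r + 6 * l * r ≤ w := by nlinarith
              omega
      calc 4 ^ w * r.factorial + 2 ^ w * (w + 1) ^ (2 * r) * (pool l).card ^ r
          ≤ 2 ^ (2 * w - 6 * l * r) * (pool l).card ^ r +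
            2 ^ (2 * w - 6 * l * r) * (pool l).card ^ r :=
            Nat.add_le_add h3 (Nat.mul_le_mul_right _ h4)
        _ = 2 ^ (2 * w + 1 - 6 * l * r) * (pool l).card ^ r := by
            have : 2 * w + 1 - 6 * l * r = (2 * w - 6 * l * r) + 1 := by omega
            rw [this, pow_succ]; ring)
    (by
      -- G ^ 2 ≤ L
      rw [← pow_mul, ← pow_mul, ← pow_add]
      refine Nat.pow_le_pow_right (by norm_num) ?_
      have h1 : 8 * l * (8 * w) ≤ 8 * l * (r * k) := Nat.mul_le_mul_left _ hk1.le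
      nlinarith)
    (by
      have hn : 10 ≤ l * w := by nlinarith
      have h1 := primes_card_big hn
      have h2 : w ≤ l * w := Nat.le_mul_of_pos_left _ (by omega)
      omega)
    (by
      -- the big inequality
      have hexp : 16 * (l * w) + 1 + 3 + 8 * l * r * k + (2 * w + 1 - 6 * l * r) * k ≤
          35 * (l * w) + 2 * w * k := by
        have h1 : (2 * w + 1 - 6 * l * r) * k = 2 * w * k + k - 6 * l * r * k := by
          rw [Nat.sub_mul, add_mul, one_mul]
        have h2 : 6 * l * r * k ≤ 2 * w * k + k := by nlinarith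
        have h3 : 2 * l * r * k ≤ 16 * (l * w) + 2 * l * r := by nlinarith [hk2]
        have h4 : 8 * l * r * k = 6 * l * r * k + 2 * l * r * k := by ring
        have h5 : 2 * l * r ≤ w := by nlinarith
        have h6 : 20 * w ≤ l * w := Nat.mul_le_mul_right _ hl
        omega
      calc (2 ^ (8 * l * w) + 1) * (6 * ((2 ^ (8 * l * r)) ^ k * 2 ^ (8 * l * w)) *
            (2 ^ (2 * w + 1 - 6 * l * r)) ^ k)
          < (2 * 2 ^ (8 * l * w)) * (8 * ((2 ^ (8 * l * r)) ^ k * 2 ^ (8 * l * w)) *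
            (2 ^ (2 * w + 1 - 6 * l * r)) ^ k) := by
            have h1 : 2 ^ (8 * l * w) + 1 ≤ 2 * 2 ^ (8 * l * w) := by
              have : 1 ≤ 2 ^ (8 * l * w) := Nat.one_le_two_pow
              omega
            have h2 : 6 * ((2 ^ (8 * l * r)) ^ k * 2 ^ (8 * l * w)) *
                (2 ^ (2 * w + 1 - 6 * l * r)) ^ k <
                8 * ((2 ^ (8 * l * r)) ^ k * 2 ^ (8 * l * w)) *
                (2 ^ (2 * w + 1 - 6 * l * r)) ^ k := by
              refine Nat.mul_lt_mul_of_pos_right ?_ (by positivity)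
              refine Nat.mul_lt_mul_of_pos_right (by norm_num) (by positivity)
            exact Nat.mul_lt_mul_of_le_of_lt h1 h2 (by positivity)
        _ = 2 ^ (16 * (l * w) + 1 + 3 + 8 * l * r * k + (2 * w + 1 - 6 * l * r) * k) := by
            rw [← pow_mul, ← pow_mul]
            have h8 : (8 : ℕ) = 2 ^ 3 := by norm_num
            generalize 2 * w + 1 - 6 * l * r = u
            rw [show (16 * (l * w) + 1 + 3 + 8 * l * r * k + u * k) =
              1 + 8 * l * w + (3 + (8 * l * r * k + 8 * l * w) + u * k) by ring]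
            rw [pow_add, pow_add, pow_add, pow_add, pow_add]
            norm_num
        _ ≤ 2 ^ (35 * (l * w) + 2 * w * k) := Nat.pow_le_pow_right (by norm_num) hexp
        _ = 2 ^ (35 * (l * w)) * ((2 ^ w) ^ k) ^ 2 := by
            rw [← pow_mul, ← pow_mul, ← pow_add]; congr 1; ring)
    (by
      rw [← pow_add]
      have h1 : 6 * l * r - 1 + (2 * w + 1 - 6 * l * r) = 2 * w := by omega
      rw [h1, pow_mul]; norm_num)
    (by positivity)
  refine (heng.mono ?_).weaken ?_
  · omega
  · refine Nat.pow_le_pow_right (by norm_num) ?_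
    have h1 : 2 ^ (l - 2) * 4 = w := by
      rw [hw, show (4 : ℕ) = 2 ^ 2 by norm_num, ← pow_add]; congr 1; omega
    have h2 : 16 * (6 * l * r) + 16 * (6 * l) > 6 * w := by nlinarith [hr2]
    omega

end Pool.Agent.Lib_helper83.EF
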